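import Mathlib

set_option autoImplicit false
open MeasureTheory Set Filter Topology Complex

namespace Pool.Agent.H308Z.MFG

abbrev E2 := EuclideanSpace ℝ (Fin 2)

/-- real-linear map sending `1` to `k` and `I` to `m * I * k` -/
noncomputable def DD (k : ℂ) (m : ℝ) : ℂ →L[ℝ] ℂ :=
  reCLM.smulRight k + imCLM.smulRight ((m : ℂ) * I * k)

theorem DD_apply (k : ℂ) (m : ℝ) (h : ℂ) : DD k m h = h.re * k + h.im * (m * I * k) := by
  simp [DD]

theorem DD_det (k : ℂ) (m l : ℝ) : (l • DD k m).det = l ^ 2 * (m * ‖k‖ ^ 2) := by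
  rw [ContinuousLinearMap.det, ← LinearMap.det_toMatrix basisOneI, Matrix.det_fin_two]
  simp [LinearMap.toMatrix_apply, DD_apply, Complex.sq_norm, normSq_apply]
  ring

theorem DD_equiv {k : ℂ} {m : ℝ} (hk : k ≠ 0) (hm : m ≠ 0) :
    ∃ e : ℂ ≃L[ℝ] ℂ, (e : ℂ →L[ℝ] ℂ) = DD k m := by
  have h : (DD k m).det ≠ 0 := by
    have := DD_det k m 1
    rw [one_smul] at this
    rw [this]
    have := norm_ne_zero_iff.2 hk
    positivity
  exact ⟨(DD k m).toContinuousLinearEquivOfDetNeZero h, by simp⟩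

/-- a channel in orthogonal coordinates `w = a + i s` together with a pressure -/
structure Chan where
  K : ℂ → ℂ
  k : ℂ → ℂ
  m : ℂ → ℝ
  O : Set ℂ
  Th : ℂ → ℂ
  a0 : ℝ
  a1 : ℝ
  s0 : ℝ
  s1 : ℝ
  c : ℝ
  T : ℝ
  b0 : ℝ
  b1 : ℝ
  l1 : ℝ
  r1 : ℝ
  l2 : ℝ
  r2 : ℝ
  p : ℝ × ℂ → ℝ
  hO : IsOpen O
  hRO : Icc a0 a1 ×ℂ Icc s0 s1 ⊆ O
  hs : s0 < s1
  hK : ∀ w ∈ O, HasFDerivAt K (DD (k w) (m w)) w
  hKc : ContDiffOn ℝ 1 K O
  kc : ContinuousOn k O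
  mc : ContinuousOn m O
  k0 : ∀ w ∈ O, k w ≠ 0
  m1 : ∀ w ∈ O, 1 ≤ m w
  hTh : ∀ w ∈ O, Th (K w) = w
  c0 : 0 < c
  T0 : 0 < T
  o1 : a0 < b0
  o2 : b0 + c * T < l1
  o3 : l1 < r1
  o4 : r1 < l2
  o5 : l2 < r2
  o6 : r2 < b1
  o7 : b1 + c * T < a1
  outer : ∀ w ∈ Icc a0 a1 ×ℂ Icc s0 s1, (w.re ≤ b0 + c * T ∨ l2 ≤ w.re) → ‖k w‖ ^ 2 = 1 / c
  slow : ∀ w ∈ Icc a0 a1 ×ℂ Icc s0 s1, w.re ∈ Icc l1 r1 → 1 / ‖k w‖ ^ 2 < c
  room : ∀ w ∈ Icc a0 a1 ×ℂ Icc s0 s1, w.re ∈ Icc l2 r2 → 1 < m w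
  pc : ContDiffOn ℝ 1 p (Icc 0 T ×ˢ (K '' (Icc a0 a1 ×ℂ Icc s0 s1)))
  pd : ∀ τ ∈ Ioo 0 T, ∀ w ∈ Ioo a0 a1 ×ℂ Ioo s0 s1, ∃ (pt : ℝ) (P : ℂ),
    HasFDerivAt p (pt • ContinuousLinearMap.fst ℝ ℝ ℂ
      + (innerSL ℝ P).comp (ContinuousLinearMap.snd ℝ ℝ ℂ)) (τ, K w) ∧
    pt - ‖P‖ ^ 2 / 2 = -((1 / ‖k w‖ ^ 2 - c) / 2)
  p0 : ∀ τ ∈ Icc 0 T, ∀ w ∈ Icc a0 a1 ×ℂ Icc s0 s1, 0 ≤ p (τ, K w)
  psat : ∀ τ ∈ Icc 0 T, ∀ w ∈ Icc a0 a1 ×ℂ Icc s0 s1, p (τ, K w) ≠ 0 →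
    m w = 1 ∧ b0 + c * T < w.re ∧ w.re < b1

noncomputable def I2 : ℂ ≃ₗᵢ[ℝ] E2 := Complex.orthonormalBasisOneI.repr

noncomputable def Lm (l : ℝ) : ℂ →L[ℝ] E2 := l • I2.toContinuousLinearEquiv.toContinuousLinearMap

noncomputable def Li (l : ℝ) : E2 →L[ℝ] ℂ :=
  l⁻¹ • I2.symm.toContinuousLinearEquiv.toContinuousLinearMap

theorem Lm_apply (l : ℝ) (z : ℂ) : Lm l z = I2 (l • z) := by simp [Lm, -real_smul]

theorem Li_Lm {l : ℝ} (hl : l ≠ 0) (z : ℂ) : Li l (Lm l z) = z := by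
  simp [Li, Lm, -real_smul, smul_smul, hl]

theorem Lm_Li {l : ℝ} (hl : l ≠ 0) (z : E2) : Lm l (Li l z) = z := by
  simp [Li, Lm, -real_smul, smul_smul, hl]

theorem inner_Lm (l : ℝ) (z z' : ℂ) : inner ℝ (Lm l z) (Lm l z') = l ^ 2 * inner ℝ z z' := by
  rw [Lm_apply, Lm_apply, LinearIsometryEquiv.inner_map_map, inner_smul_left, inner_smul_right]
  simp; ring

theorem norm_Lm (l : ℝ) (z : ℂ) : ‖Lm l z‖ ^ 2 = l ^ 2 * ‖z‖ ^ 2 := by
  rw [← real_inner_self_eq_norm_sq, inner_Lm, real_inner_self_eq_norm_sq]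

theorem isOpenMap_Lm {l : ℝ} (hl : l ≠ 0) : IsOpenMap (Lm l) := by
  have : (Lm l : ℂ → E2) = I2 ∘ fun z => l • z := funext (Lm_apply l)
  rw [this]
  exact I2.toHomeomorph.isOpenMap.comp (isOpenMap_smul₀ hl)

theorem swap_int {G : ℝ → ℝ → ℝ} (hG : Continuous (Function.uncurry G)) (a b c d : ℝ) :
    ∫ x in a..b, ∫ y in c..d, G x y = ∫ y in c..d, ∫ x in a..b, G x y := by
  refine intervalIntegral_intervalIntegral_swap ?_
  exact (hG.continuousOn.integrableOn_compact (isCompact_uIcc.prod isCompact_uIcc)).mono_set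
    (prod_mono uIoc_subset_uIcc uIoc_subset_uIcc)

namespace Chan

variable (C : Chan)

def R : Set ℂ := Ioo C.a0 C.a1 ×ℂ Ioo C.s0 C.s1
def Rb : Set ℂ := Icc C.a0 C.a1 ×ℂ Icc C.s0 C.s1

theorem cT : 0 < C.c * C.T := mul_pos C.c0 C.T0

theorem ha : C.a0 < C.a1 := by
  linarith [C.o1, C.o2, C.o3, C.o4, C.o5, C.o6, C.o7, C.cT]

theorem R_sub : C.R ⊆ C.Rb := fun _ h => ⟨Ioo_subset_Icc_self h.1, Ioo_subset_Icc_self h.2⟩
theorem Rb_sub : C.Rb ⊆ C.O := C.hRO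
theorem R_open : IsOpen C.R := isOpen_Ioo.reProdIm isOpen_Ioo
theorem Rb_compact : IsCompact C.Rb := isCompact_Icc.reProdIm isCompact_Icc
theorem closure_R : closure C.R = C.Rb := by
  rw [R, closure_reProdIm, closure_Ioo C.ha.ne, closure_Ioo C.hs.ne]; rfl
theorem Rb_convex : Convex ℝ C.Rb := by
  have : C.Rb = reLm ⁻¹' Icc C.a0 C.a1 ∩ imLm ⁻¹' Icc C.s0 C.s1 := rfl
  rw [this]
  exact ((convex_Icc _ _).linear_preimage _).inter ((convex_Icc _ _).linear_preimage _)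
theorem Rb_unique : UniqueDiffOn ℝ C.Rb := by
  refine uniqueDiffOn_convex C.Rb_convex ?_
  refine ⟨⟨(C.a0 + C.a1) / 2, (C.s0 + C.s1) / 2⟩, interior_maximal C.R_sub C.R_open ?_⟩
  have := C.ha; have := C.hs
  refine ⟨⟨?_, ?_⟩, ⟨?_, ?_⟩⟩ <;> simp only <;> linarith

noncomputable def kap (w : ℂ) : ℝ := ‖C.k w‖ ^ 2

theorem kap_pos {w : ℂ} (hw : w ∈ C.O) : 0 < C.kap w := by
  have := norm_pos_iff.2 (C.k0 w hw)
  unfold kap; positivity

theorem kap_cont : ContinuousOn C.kap C.O := C.kc.norm.pow 2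

theorem inj : InjOn C.K C.O := fun a ha b hb h => by rw [← C.hTh a ha, h, C.hTh b hb]

theorem strict {w : ℂ} (hw : w ∈ C.O) : ∃ e : ℂ ≃L[ℝ] ℂ, (e : ℂ →L[ℝ] ℂ) = DD (C.k w) (C.m w) ∧
    HasStrictFDerivAt C.K (e : ℂ →L[ℝ] ℂ) w := by
  obtain ⟨e, he⟩ := DD_equiv (C.k0 w hw) (m := C.m w) (by linarith [C.m1 w hw])
  refine ⟨e, he, ?_⟩
  rw [he]
  exact (C.hKc.contDiffAt (C.hO.mem_nhds hw)).hasStrictFDerivAt' (C.hK w hw) (by norm_num)

theorem K_open {U : Set ℂ} (hU : IsOpen U) (hUO : U ⊆ C.O) : IsOpen (C.K '' U) := by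
  rw [isOpen_iff_mem_nhds]
  rintro _ ⟨w, hw, rfl⟩
  obtain ⟨e, -, he⟩ := C.strict (hUO hw)
  rw [← he.map_nhds_eq_of_equiv]
  exact image_mem_map (hU.mem_nhds hw)

theorem Th_contDiff {w : ℂ} (hw : w ∈ C.O) : ContDiffAt ℝ 1 C.Th (C.K w) := by
  obtain ⟨e, -, he⟩ := C.strict hw
  have hc := C.hKc.contDiffAt (C.hO.mem_nhds hw)
  have h1 := hc.to_localInverse he.hasFDerivAt (by norm_num)
  refine h1.congr_of_eventuallyEq ?_
  exact (hc.hasStrictFDerivAt' he.hasFDerivAt (by norm_num)).localInverse_unique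
    (by filter_upwards [C.hO.mem_nhds hw] with x hx using C.hTh x hx)

theorem re_Th_fderiv {w : ℂ} (hw : w ∈ C.O) :
    HasFDerivAt (fun z => (C.Th z).re) (innerSL ℝ ((C.kap w)⁻¹ • C.k w)) (C.K w) := by
  obtain ⟨e, he', he⟩ := C.strict hw
  have h1 := (he.to_local_left_inverse (g := C.Th)
    (by filter_upwards [C.hO.mem_nhds hw] with x hx using C.hTh x hx)).hasFDerivAt
  refine (reCLM.hasFDerivAt.comp _ h1).congr_fderiv ?_
  ext1 v
  obtain ⟨h, rfl⟩ := e.surjective v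
  have h2 : e h = DD (C.k w) (C.m w) h := by rw [← he']; rfl
  have h3 := (C.kap_pos hw).ne'
  simp only [ContinuousLinearMap.comp_apply, ContinuousLinearEquiv.coe_coe,
    ContinuousLinearEquiv.symm_apply_apply, reCLM_apply, innerSL_apply_apply, inner_smul_left]
  rw [h2, DD_apply]
  have h4 : C.kap w = (C.k w).re ^ 2 + (C.k w).im ^ 2 := by
    simp [kap, Complex.sq_norm, normSq_apply]; ring
  simp only [Complex.inner, conj_trivial]
  field_simp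
  rw [h4]
  simp
  ring

variable (l : ℝ)

noncomputable def Kp (w : ℂ) : E2 := Lm l (C.K w)
noncomputable def Om : Set E2 := C.Kp l '' C.R
noncomputable def th (x : E2) : ℂ := C.Th (Li l x)

variable {l}

theorem th_Kp (hl : l ≠ 0) {w : ℂ} (hw : w ∈ C.O) : C.th l (C.Kp l w) = w := by
  rw [th, Kp, Li_Lm hl, C.hTh w hw]

theorem Kp_contDiffOn : ContDiffOn ℝ 1 (C.Kp l) C.O := (Lm l).contDiff.comp_contDiffOn C.hKc

theorem Om_open (hl : l ≠ 0) : IsOpen (C.Om l) := by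
  have : C.Om l = Lm l '' (C.K '' C.R) := by rw [image_image]; rfl
  rw [this]
  exact isOpenMap_Lm hl _ (C.K_open C.R_open (C.R_sub.trans C.Rb_sub))

theorem Kb_compact : IsCompact (C.Kp l '' C.Rb) :=
  C.Rb_compact.image_of_continuousOn (C.Kp_contDiffOn.continuousOn.mono C.Rb_sub)

theorem closure_Om_sub : closure (C.Om l) ⊆ C.Kp l '' C.Rb :=
  closure_minimal (image_mono C.R_sub) C.Kb_compact.isClosed

theorem maps_closure : MapsTo (C.Kp l) C.Rb (closure (C.Om l)) := by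
  rw [mapsTo_iff_image_subset, ← C.closure_R]
  refine ContinuousOn.image_closure ?_
  rw [C.closure_R]
  exact C.Kp_contDiffOn.continuousOn.mono C.Rb_sub

theorem Om_bounded : Bornology.IsBounded (C.Om l) :=
  C.Kb_compact.isBounded.subset (image_mono C.R_sub)

theorem th_contDiff (hl : l ≠ 0) {w : ℂ} (hw : w ∈ C.O) : ContDiffAt ℝ 1 (C.th l) (C.Kp l w) := by
  have h := C.Th_contDiff hw
  rw [← Li_Lm hl (C.K w)] at h
  exact h.comp _ (Li l).contDiff.contDiffAt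

theorem th_contOn (hl : l ≠ 0) : ContinuousOn (C.th l) (C.Kp l '' C.Rb) := by
  rintro _ ⟨w, hw, rfl⟩
  exact (C.th_contDiff hl (C.Rb_sub hw)).continuousAt.continuousWithinAt

theorem th_maps (hl : l ≠ 0) : MapsTo (C.th l) (C.Kp l '' C.Rb) C.Rb := by
  rintro _ ⟨w, hw, rfl⟩
  rwa [C.th_Kp hl (C.Rb_sub hw)]

theorem cv (hl : 0 < l) (F : E2 → ℝ) :
    ∫ x in C.Om l, F x = ∫ w in C.R, l ^ 2 * (C.m w * C.kap w) * F (C.Kp l w) := by
  have e : C.Om l = I2 '' ((fun w => l • C.K w) '' C.R) := by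
    rw [image_image]; unfold Om Kp; simp only [Lm_apply]
  have hRO : C.R ⊆ C.O := C.R_sub.trans C.Rb_sub
  rw [e, I2.measurePreserving.setIntegral_image_emb I2.toHomeomorph.measurableEmbedding,
    integral_image_eq_integral_abs_det_fderiv_smul volume C.R_open.measurableSet
      (f := fun w => l • C.K w) (f' := fun w => l • DD (C.k w) (C.m w))
      (fun w hw => ((C.hK w (hRO hw)).const_smul l).hasFDerivWithinAt)
      (fun a ha b hb h => C.inj (hRO ha) (hRO hb) (smul_right_injective ℂ hl.ne' h))]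
  refine setIntegral_congr_fun C.R_open.measurableSet fun w hw => ?_
  have h1 := C.m1 w (hRO hw)
  have h2 := C.kap_pos (hRO hw)
  simp only [DD_det, smul_eq_mul, Kp, Lm_apply]
  rw [abs_of_nonneg (by unfold kap at h2; positivity)]
  rfl

theorem front (hl : 0 < l) (F : E2 → ℝ) {G : ℝ → ℝ → ℝ} (hG : Continuous (Function.uncurry G))
    {u v : ℝ} (hu : C.a0 ≤ u) (huv : u ≤ v) (hv : v ≤ C.a1)
    (h : ∀ w ∈ C.R, l ^ 2 * (C.m w * C.kap w) * F (C.Kp l w)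
      = if w.re ∈ Ioo u v then G w.re w.im else 0) :
    ∫ x in C.Om l, F x = ∫ a in u..v, ∫ s in C.s0..C.s1, G a s := by
  rw [C.cv hl, setIntegral_congr_fun C.R_open.measurableSet h]
  have e : C.R = measurableEquivRealProd ⁻¹' (Ioo C.a0 C.a1 ×ˢ Ioo C.s0 C.s1) := rfl
  have h1 := volume_preserving_equiv_real_prod.setIntegral_preimage_emb
    measurableEquivRealProd.measurableEmbedding
    (indicator (Ioo u v ×ˢ univ) (Function.uncurry G)) (Ioo C.a0 C.a1 ×ˢ Ioo C.s0 C.s1)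
  have h2 : ∀ w : ℂ, indicator (Ioo u v ×ˢ univ) (Function.uncurry G) (measurableEquivRealProd w)
      = if w.re ∈ Ioo u v then G w.re w.im else 0 := by
    intro w
    simp [indicator, Function.uncurry]
  simp only [h2] at h1
  rw [e, h1, setIntegral_indicator (measurableSet_Ioo.prod MeasurableSet.univ), prod_inter_prod,
    inter_univ, inter_eq_right.2 (Ioo_subset_Ioo hu hv), Measure.volume_eq_prod, setIntegral_prod]
  · simp only [intervalIntegral.integral_of_le huv, intervalIntegral.integral_of_le C.hs.le,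
      integral_Ioc_eq_integral_Ioo, Function.uncurry]
  · rw [← Measure.volume_eq_prod]
    exact (hG.continuousOn.integrableOn_compact (isCompact_Icc.prod isCompact_Icc)).mono_set
      (prod_mono Ioo_subset_Icc_self Ioo_subset_Icc_self)

/-- clamping onto the closed rectangle -/
noncomputable def pr (a s : ℝ) : ℂ := ⟨max C.a0 (min a C.a1), max C.s0 (min s C.s1)⟩

theorem pr_mem (a s : ℝ) : C.pr a s ∈ C.Rb :=
  ⟨⟨le_max_left _ _, max_le C.ha.le (min_le_right _ _)⟩,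
    ⟨le_max_left _ _, max_le C.hs.le (min_le_right _ _)⟩⟩

theorem pr_re {a : ℝ} (ha : a ∈ Icc C.a0 C.a1) (s : ℝ) : (C.pr a s).re = a := by
  simp only [pr]; rw [min_eq_left ha.2, max_eq_right ha.1]

theorem pr_eq {w : ℂ} (hw : w ∈ C.Rb) : C.pr w.re w.im = w := by
  have h1 : w.re ∈ Icc C.a0 C.a1 := hw.1
  have h2 : w.im ∈ Icc C.s0 C.s1 := hw.2
  apply Complex.ext
  · exact C.pr_re h1 _
  · simp only [pr]; rw [min_eq_left h2.2, max_eq_right h2.1]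

theorem pr_cont : Continuous fun z : ℝ × ℝ => C.pr z.1 z.2 := by
  have : (fun z : ℝ × ℝ => C.pr z.1 z.2) = fun z => equivRealProdCLM.symm
      (max C.a0 (min z.1 C.a1), max C.s0 (min z.2 C.s1)) := by
    funext z; rfl
  rw [this]
  exact equivRealProdCLM.symm.continuous.comp (by fun_prop)

theorem comp_pr {X : Type*} [TopologicalSpace X] {G : ℂ → X} (hG : ContinuousOn G C.Rb) :
    Continuous fun z : ℝ × ℝ => G (C.pr z.1 z.2) :=
  hG.comp_continuous C.pr_cont fun z => C.pr_mem z.1 z.2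

end Chan

end Pool.Agent.H308Z.MFG
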