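import Pool.Agent.H308Z.MFG.Flow

set_option autoImplicit false
open MeasureTheory Set Filter Topology Complex

namespace Pool.Agent.H308Z.MFG

def AdmP (Ω : Set E2) (T : ℝ) (ρ₀ : E2 → ℝ) (ρ : ℝ → E2 → ℝ) (v : ℝ → E2 → E2) : Prop :=
  AEMeasurable (Function.uncurry ρ) (volume.restrict (Set.Ioo 0 T ×ˢ Ω)) ∧
    AEMeasurable (Function.uncurry v) (volume.restrict (Set.Ioo 0 T ×ˢ Ω)) ∧
    (∀ t ∈ Set.Icc 0 T, IntegrableOn (ρ t) Ω ∧ (∫ x in Ω, ρ t x) = 1 ∧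
      ∀ᵐ x ∂(volume.restrict Ω), 0 ≤ ρ t x ∧ ρ t x ≤ 1) ∧
    (∫⁻ z in Set.Ioo 0 T ×ˢ Ω, ENNReal.ofReal (‖v z.1 z.2‖ ^ 2 * ρ z.1 z.2)) < ⊤ ∧
    (∀ᵐ x ∂(volume.restrict Ω), ρ 0 x = ρ₀ x) ∧
    (∀ ψ : E2 → ℝ, ContDiffOn ℝ 1 ψ (closure Ω) →
      (∃ K : NNReal, LipschitzOnWith K (fun t => ∫ x in Ω, ψ x * ρ t x) (Set.Icc 0 T)) ∧
      ∀ᵐ t ∂(volume.restrict (Set.Ioo 0 T)),
        HasDerivAt (fun s => ∫ x in Ω, ψ x * ρ s x)
          (∫ x in Ω, inner ℝ (gradient ψ x) (v t x) * ρ t x) t)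

noncomputable def KE (Ω : Set E2) (T : ℝ) (ρ : ℝ → E2 → ℝ) (v : ℝ → E2 → E2) : ENNReal :=
  ∫⁻ z in Set.Ioo 0 T ×ˢ Ω, ENNReal.ofReal (‖v z.1 z.2‖ ^ 2 / 2 * ρ z.1 z.2)

namespace Chan

variable {C : Chan} {l ε : ℝ}

theorem rho_zero (l ε : ℝ) : C.rho l ε 0 = C.rho l 0 0 := by
  funext x; simp [rho, mu, eta]

theorem rho_T (l ε : ℝ) : C.rho l ε C.T = C.rho l 0 C.T := by
  funext x; simp [rho, mu, eta]

theorem good_zero : C.Good 0 := by
  obtain ⟨ε, h, h'⟩ := C.exists_good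
  exact h' 0 ⟨le_rfl, h.le⟩

theorem exists_scale : ∃ l, 0 < l ∧ ∫ x in C.Om l, C.rho l 0 0 x = 1 := by
  have κc : Continuous (Function.uncurry fun a s => C.kap (C.pr a s)) :=
    C.comp_pr (C.kap_cont.mono C.Rb_sub)
  have z : (0:ℝ) ∈ Icc 0 C.T := ⟨le_rfl, C.T0.le⟩
  obtain ⟨o1, o2, o3, o4⟩ := C.lohi z
  set M := ∫ a in C.lo 0..C.hi 0, ∫ s in C.s0..C.s1, C.kap (C.pr a s) with hM
  have hM0 : 0 < M := by
    refine intervalIntegral.intervalIntegral_pos_of_pos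
      ((intervalIntegral.continuous_parametric_intervalIntegral_of_continuous' κc _ _).intervalIntegrable
        _ _) (fun a => ?_) (by linarith [C.o2, C.o3, C.o4, C.o5, C.o6])
    exact intervalIntegral.intervalIntegral_pos_of_pos ((κc.uncurry_left a).intervalIntegrable _ _)
      (fun s => C.kap_pos (C.Rb_sub (C.pr_mem a s))) C.hs
  have hl : 0 < (√M)⁻¹ := by positivity
  refine ⟨(√M)⁻¹, hl, ?_⟩
  have Gc : Continuous (Function.uncurry fun a s => (√M)⁻¹ ^ 2 * C.kap (C.pr a s)) :=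
    continuous_const.mul κc
  rw [C.front hl _ Gc
    o1.le (C.lo_le_hi z) o4.le (fun w hw => by
      have hw' := C.R_sub hw
      have := (C.kap_pos (C.Rb_sub hw')).ne'
      have : C.m w ≠ 0 := by linarith [C.m1 w (C.Rb_sub hw')]
      rw [rho_Kp hl.ne' 0 hw']
      split_ifs
      · simp only [C.pr_eq hw', mu, zero_mul, sub_zero]
        field_simp
      · simp)]
  simp only [intervalIntegral.integral_const_mul, ← hM]
  rw [inv_pow, Real.sq_sqrt hM0.le, inv_mul_cancel₀ hM0.ne']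

theorem A_meas (hl : l ≠ 0) : MeasurableSet (Ioo 0 C.T ×ˢ C.Om l) :=
  measurableSet_Ioo.prod (C.Om_open hl).measurableSet

theorem A_sub : Ioo 0 C.T ×ˢ C.Om l ⊆ Icc 0 C.T ×ˢ (C.Kp l '' C.Rb) :=
  prod_mono Ioo_subset_Icc_self (image_mono C.R_sub)

theorem Good.vel_bd (h : C.Good ε) (hl : l ≠ 0) :
    ∃ B, ∀ z ∈ Icc 0 C.T ×ˢ (C.Kp l '' C.Rb), ‖C.vel l ε z.1 z.2‖ ≤ B :=
  (isCompact_Icc.prod C.Kb_compact).exists_bound_of_continuousOn (h.vel_contOn hl)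

theorem Good.adm (h : C.Good ε) (hl : 0 < l) (hM : ∫ x in C.Om l, C.rho l 0 0 x = 1)
    {v : ℝ → E2 → E2} (hv : ∀ τ ∈ Ioo 0 C.T, ∀ x ∈ C.Om l, v τ x = C.vel l ε τ x) :
    AdmP (C.Om l) C.T (C.rho l 0 0) (C.rho l ε) v := by
  have hΩ := (C.Om_open hl.ne').measurableSet
  have z : (0:ℝ) ∈ Icc 0 C.T := ⟨le_rfl, C.T0.le⟩
  refine ⟨aem_rho hl.ne' volume (A_meas hl.ne') (f := id) continuous_id A_sub, ?_, fun τ hτ => ⟨h.rho_int hl.ne' hτ, ?_, ?_⟩,
    ?_, by simp [rho_zero l ε], fun ψ hψ => ?_⟩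
  · refine (((h.vel_contOn hl.ne').mono A_sub).aemeasurable (A_meas hl.ne')).congr ?_
    filter_upwards [ae_restrict_mem (A_meas hl.ne')] with z hz
    exact (hv z.1 hz.1 z.2 hz.2).symm
  · obtain ⟨F, F', h1, -, h2, h3⟩ := test h hl (ψ := fun _ => 1) contDiffOn_const
    have h4 := constant_of_has_deriv_right_zero (f := F) (a := 0) (b := C.T)
      (fun s _ => (h1 s).continuousAt.continuousWithinAt)
      (fun s hs => by
        have := h3 s (Ico_subset_Icc_self hs)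
        simp only [gradient_fun_const, inner_zero_left, zero_mul, integral_zero] at this
        rw [this]; exact (h1 s).hasDerivWithinAt) τ hτ
    have h5 := h2 τ hτ
    have h6 := h2 0 z
    simp only [one_mul] at h5 h6
    rw [h5, h4, ← h6, rho_zero l ε, hM]
  · filter_upwards [ae_restrict_mem hΩ] with x hx using h.rho_mem hl.ne' hτ hx
  · obtain ⟨B, hB⟩ := h.vel_bd hl.ne'
    refine setLIntegral_lt_top_of_le_nnreal ?_ ⟨(B ^ 2).toNNReal, fun z hz => ?_⟩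
    · exact ((Metric.isBounded_Ioo _ _).prod C.Om_bounded).measure_lt_top.ne
    · refine ENNReal.ofReal_le_ofReal ?_
      rw [hv z.1 hz.1 z.2 hz.2]
      have h1 := pow_le_pow_left₀ (norm_nonneg _) (hB z (A_sub hz)) 2
      have h2 := h.rho_mem hl.ne' (Ioo_subset_Icc_self hz.1) hz.2
      nlinarith [sq_nonneg ‖C.vel l ε z.1 z.2‖, h2.1, h2.2]
  · obtain ⟨F, F', h1, hc, h2, h3⟩ := test h hl hψ
    constructor
    · have hd : deriv F = F' := funext fun τ => (h1 τ).deriv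
      have : ContDiff ℝ 1 F := contDiff_one_iff_deriv.2 ⟨fun τ => (h1 τ).differentiableAt, hd ▸ hc⟩
      obtain ⟨K, hK⟩ := this.contDiffOn.exists_lipschitzOnWith (by norm_num) (convex_Icc 0 C.T)
        isCompact_Icc
      refine ⟨K, fun a ha b hb => ?_⟩
      simp only [h2 a ha, h2 b hb]
      exact hK ha hb
    · filter_upwards [ae_restrict_mem measurableSet_Ioo] with τ hτ
      rw [setIntegral_congr_fun hΩ (g := fun x => inner ℝ (gradient ψ x) (C.vel l ε τ x) * C.rho l ε τ x)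
        (fun x hx => by simp only [hv τ hτ x hx]), h3 τ (Ioo_subset_Icc_self hτ)]
      refine (h1 τ).congr_of_eventuallyEq ?_
      filter_upwards [Icc_mem_nhds hτ.1 hτ.2] with s hs using h2 s hs

noncomputable def ed (C : Chan) (l ε τ a s : ℝ) : ℝ :=
  l ^ 4 * (C.jj ε τ a ^ 2 * C.kap (C.pr a s) / (2 * C.mu ε τ (C.pr a s)))

noncomputable def En (C : Chan) (l ε τ : ℝ) : ℝ :=
  ∫ a in C.lo τ..C.hi τ, ∫ s in C.s0..C.s1, C.ed l ε τ a s

theorem Good.ed_cont (h : C.Good ε) {τ : ℝ} (hτ : τ ∈ Icc 0 C.T) :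
    Continuous (Function.uncurry (C.ed l ε τ)) := by
  have jc : Continuous (C.jj ε τ) := jj_cont.comp (Continuous.prodMk_right τ)
  have κc := C.comp_pr (C.kap_cont.mono C.Rb_sub)
  have μc := C.comp_pr (G := C.mu ε τ) (mu_contOn.comp (Continuous.prodMk_right τ).continuousOn
    fun w hw => ⟨mem_univ _, hw⟩)
  exact continuous_const.mul ((((jc.comp continuous_fst).pow 2).mul κc).div (continuous_const.mul μc)
    fun z => mul_ne_zero two_ne_zero (h.mu_pos hτ (C.pr_mem _ _)).ne')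

theorem Good.En_eq (h : C.Good ε) (hl : 0 < l) {τ : ℝ} (hτ : τ ∈ Icc 0 C.T) :
    ∫ x in C.Om l, ‖C.vel l ε τ x‖ ^ 2 / 2 * C.rho l ε τ x = C.En l ε τ := by
  obtain ⟨o1, o2, o3, o4⟩ := C.lohi hτ
  refine C.front hl _ (h.ed_cont hτ) o1.le (C.lo_le_hi hτ) o4.le fun w hw => ?_
  have hw' := C.R_sub hw
  have := (C.kap_pos (C.Rb_sub hw')).ne'
  have : C.m w ≠ 0 := by linarith [C.m1 w (C.Rb_sub hw')]
  have := (h.mu_pos hτ hw').ne'
  rw [rho_Kp hl.ne' τ hw', vel_Kp hl.ne' τ hw', norm_smul, mul_pow, norm_Lm, Real.norm_eq_abs, sq_abs]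
  split_ifs
  · simp only [ed, C.pr_eq hw']
    rw [show ‖C.k w‖ ^ 2 = C.kap w from rfl]
    field_simp
  · simp

theorem Good.En_nonneg (h : C.Good ε) (hl : 0 < l) {τ : ℝ} (hτ : τ ∈ Icc 0 C.T) :
    0 ≤ C.En l ε τ := by
  rw [← h.En_eq hl hτ]
  exact setIntegral_nonneg (C.Om_open hl.ne').measurableSet fun x hx =>
    mul_nonneg (by positivity) (h.rho_mem hl.ne' hτ hx).1

theorem Good.KE_eq (h : C.Good ε) (hl : 0 < l)
    {v : ℝ → E2 → E2} (hv : ∀ τ ∈ Ioo 0 C.T, ∀ x ∈ C.Om l, v τ x = C.vel l ε τ x) :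
    KE (C.Om l) C.T (C.rho l ε) v = ∫⁻ τ in Ioo 0 C.T, ENNReal.ofReal (C.En l ε τ) := by
  have hΩ := (C.Om_open hl.ne').measurableSet
  obtain ⟨B, hB⟩ := h.vel_bd hl.ne'
  have m1 := aem_rho (C := C) (ε := ε) hl.ne' volume (A_meas hl.ne') (f := id) continuous_id A_sub
  have m2 := ((((h.vel_contOn hl.ne').mono A_sub).norm.pow 2).div_const 2).aemeasurable
    (μ := volume) (A_meas hl.ne')
  rw [KE, setLIntegral_congr_fun (A_meas hl.ne')
    (g := fun z => ENNReal.ofReal (‖C.vel l ε z.1 z.2‖ ^ 2 / 2 * C.rho l ε z.1 z.2))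
    (fun z hz => by simp only [hv z.1 hz.1 z.2 hz.2]), Measure.volume_eq_prod,
    setLIntegral_prod _ (by rw [← Measure.volume_eq_prod]; exact (m2.mul m1).ennreal_ofReal)]
  refine setLIntegral_congr_fun measurableSet_Ioo fun τ hτ => ?_
  have hτ' := Ioo_subset_Icc_self hτ
  rw [← h.En_eq hl hτ', ofReal_integral_eq_lintegral_ofReal]
  · have c1 : ContinuousOn (fun x => ‖C.vel l ε τ x‖ ^ 2 / 2) (C.Om l) :=
      (((h.vel_contOn hl.ne').comp (Continuous.prodMk_right τ).continuousOn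
        fun x hx => ⟨hτ', image_mono C.R_sub hx⟩).norm.pow 2).div_const 2
    refine (h.rho_int hl.ne' hτ').bdd_mul (c := B ^ 2 / 2) (c1.aestronglyMeasurable hΩ) ?_
    filter_upwards [ae_restrict_mem hΩ] with x hx
    have h1 := pow_le_pow_left₀ (norm_nonneg _) (hB (τ, x) ⟨hτ', image_mono C.R_sub hx⟩) 2
    rw [Real.norm_eq_abs, abs_of_nonneg (by positivity)]
    linarith
  · filter_upwards [ae_restrict_mem hΩ] with x hx
    exact mul_nonneg (by positivity) (h.rho_mem hl.ne' hτ' hx).1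

theorem En_zero (l τ : ℝ) : C.En l 0 τ = l ^ 4 * (C.s1 - C.s0) * ((C.b1 - C.b0) / 2) := by
  have : ∀ a s, C.ed l 0 τ a s = l ^ 4 / 2 := fun a s => by
    have := (C.kap_pos (C.Rb_sub (C.pr_mem a s))).ne'
    simp only [ed, jj, mu, zero_mul, sub_zero, add_zero]
    field_simp
  simp only [En, this, intervalIntegral.integral_const, smul_eq_mul, lo, hi]
  ring

theorem En_le : ∃ δ B : ℝ, 0 < δ ∧ 0 ≤ B ∧ ∀ ε, C.Good ε → ∀ τ ∈ Icc 0 C.T,
    C.En l ε τ ≤ l ^ 4 * (C.s1 - C.s0) * ((C.b1 - C.b0) * (1 / 2 + ε ^ 2 * B)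
      + ε * (C.eta' τ * C.Ph C.be τ) - ε * C.eta τ * δ / 2) := by
  have hsub : C.Rb ∩ re ⁻¹' Icc C.l1 C.r1 ⊆ C.O := inter_subset_left.trans C.Rb_sub
  obtain ⟨δ, hδ, hδ'⟩ := (C.strip_compact C.l1 C.r1).exists_forall_le'
    (f := fun w => C.c - 1 / C.kap w) (a := 0)
    (continuousOn_const.sub (continuousOn_const.div (C.kap_cont.mono hsub)
      fun w hw => (C.kap_pos (hsub hw)).ne')) fun w hw => sub_pos.2 (C.slow w hw.1 hw.2)
  obtain ⟨B, hB⟩ := (isCompact_Icc.prod C.Rb_compact).exists_bound_of_continuousOn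
    (f := fun z : ℝ × ℂ => C.eta' z.1 * C.be z.2.re + C.eta z.1 * C.be' z.2.re / C.kap z.2)
    (s := Icc 0 C.T ×ˢ C.Rb) (by
      have := C.eta_cont
      have := C.eta'_cont
      have := C.be_cont
      have := C.be'_cont
      refine ContinuousOn.add (by fun_prop) (ContinuousOn.div (by fun_prop)
        ((C.kap_cont.mono C.Rb_sub).comp continuousOn_snd fun z hz => hz.2)
        fun z hz => (C.kap_pos (C.Rb_sub hz.2)).ne'))
  refine ⟨δ, B ^ 2, hδ, sq_nonneg _, fun ε h τ hτ => ?_⟩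
  obtain ⟨o1, o2, o3, o4⟩ := C.lohi hτ
  have olh := C.lo_le_hi hτ
  obtain ⟨n0, -⟩ := C.eta_bd hτ
  let bd : ℝ → ℝ := fun a => l ^ 4 * (1 / 2 + ε ^ 2 * B ^ 2 + ε * C.eta' τ * C.be a
    + ε * C.eta τ * (C.c - δ) / 2 * St' C.l1 C.r1 a - ε * C.eta τ * C.c / 2 * St' C.l2 C.r2 a)
  have pt : ∀ a ∈ Icc (C.lo τ) (C.hi τ), ∀ s, C.ed l ε τ a s ≤ bd a := by
    intro a ha s
    have hw := C.pr_mem a s
    have hre : (C.pr a s).re = a := C.pr_re ⟨o1.le.trans ha.1, ha.2.trans o4.le⟩ s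
    set w := C.pr a s
    have k0 := C.kap_pos (C.Rb_sub hw)
    have m0 := h.mu_pos hτ hw
    have m1 := (h.2 τ hτ w hw).1
    have hX := hB (τ, w) ⟨hτ, hw⟩
    simp only [hre, Real.norm_eq_abs] at hX
    set X := C.eta' τ * C.be a + C.eta τ * C.be' a / C.kap w with hXd
    have hX2 : X ^ 2 ≤ B ^ 2 := by rw [← sq_abs]; exact pow_le_pow_left₀ (abs_nonneg _) hX 2
    have e1 : C.jj ε τ a ^ 2 * C.kap w / (2 * C.mu ε τ w)
        = 1 / 2 + ε * C.eta' τ * C.be a + ε * C.eta τ * (C.be' a / C.kap w) / 2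
          + ε ^ 2 * X ^ 2 * (C.kap w / (2 * C.mu ε τ w)) := by
      have e : C.mu ε τ w = C.kap w - ε * C.eta τ * C.be' a := by rw [mu, hre]
      have m0' := m0.ne'
      rw [hXd, jj]
      rw [e] at m0' ⊢
      field_simp
      ring
    have e2 : C.kap w / (2 * C.mu ε τ w) ≤ 1 := (div_le_one (by linarith)).2 (by linarith)
    have e3 : ε ^ 2 * X ^ 2 * (C.kap w / (2 * C.mu ε τ w)) ≤ ε ^ 2 * B ^ 2 := by
      have := mul_le_mul_of_nonneg_left e2 (by positivity : 0 ≤ ε ^ 2 * X ^ 2)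
      nlinarith [mul_le_mul_of_nonneg_left hX2 (sq_nonneg ε)]
    have e4 : St' C.l1 C.r1 a / C.kap w ≤ (C.c - δ) * St' C.l1 C.r1 a := by
      by_cases hh : a ∈ Icc C.l1 C.r1
      · have := hδ' w ⟨hw, by rwa [mem_preimage, hre]⟩
        have := mul_le_mul_of_nonneg_right (by linarith : 1 / C.kap w ≤ C.c - δ) (St'_nonneg C.o3 a)
        rwa [one_div_mul_eq_div] at this
      · simp [St'_zero C.o3 hh]
    have e5 : St' C.l2 C.r2 a / C.kap w = C.c * St' C.l2 C.r2 a := by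
      by_cases hh : a ∈ Icc C.l2 C.r2
      · have : C.kap w = 1 / C.c := C.outer w hw (Or.inr (by rw [hre]; exact hh.1))
        rw [this]; field_simp
      · simp [St'_zero C.o5 hh]
    have e6 : C.be' a / C.kap w ≤ (C.c - δ) * St' C.l1 C.r1 a - C.c * St' C.l2 C.r2 a := by
      rw [be', sub_div]; linarith
    have e7 := mul_le_mul_of_nonneg_left e6 (mul_nonneg h.1 n0)
    simp only [ed, bd]
    refine mul_le_mul_of_nonneg_left ?_ (by positivity)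
    rw [e1]
    linarith
  have c1 := St'_cont C.l1 C.r1
  have c2 := St'_cont C.l2 C.r2
  have c3 := C.be_cont
  have bc : Continuous bd := by fun_prop
  have i1 : ∫ a in C.lo τ..C.hi τ, St' C.l1 C.r1 a = 1 := by
    rw [intervalIntegral.integral_eq_sub_of_hasDerivAt (fun a _ => St_deriv _ _ a)
      (c1.intervalIntegrable _ _), St_one C.o3 (by linarith [C.o4, C.o5, C.o6]),
      St_zero C.o3 (by linarith [C.o2]), sub_zero]
  have i2 : ∫ a in C.lo τ..C.hi τ, St' C.l2 C.r2 a = 1 := by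
    rw [intervalIntegral.integral_eq_sub_of_hasDerivAt (fun a _ => St_deriv _ _ a)
      (c2.intervalIntegrable _ _), St_one C.o5 (by linarith [C.o6]),
      St_zero C.o5 (by linarith [C.o2, C.o3, C.o4]), sub_zero]
  calc C.En l ε τ ≤ ∫ a in C.lo τ..C.hi τ, (C.s1 - C.s0) * bd a := by
        refine intervalIntegral.integral_mono_on olh
          ((intervalIntegral.continuous_parametric_intervalIntegral_of_continuous' (h.ed_cont hτ)
            _ _).intervalIntegrable _ _) ((continuous_const.mul bc).intervalIntegrable _ _)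
          fun a ha => ?_
        have := intervalIntegral.integral_mono_on C.hs.le
          (((h.ed_cont (l := l) hτ).uncurry_left a).intervalIntegrable (μ := volume) _ _)
          (continuous_const.intervalIntegrable _ _) fun s _ => pt a ha s
        simpa using this
    _ = _ := by
        simp only [bd]
        rw [intervalIntegral.integral_const_mul, intervalIntegral.integral_const_mul,
          intervalIntegral.integral_sub, intervalIntegral.integral_add, intervalIntegral.integral_add]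
        · simp only [intervalIntegral.integral_const_mul, i1, i2, intervalIntegral.integral_const,
            smul_eq_mul, Ph]
          rw [show C.hi τ - C.lo τ = C.b1 - C.b0 by simp only [lo, hi]; ring]
          ring
        all_goals exact Continuous.intervalIntegrable (by fun_prop) _ _

theorem KE_lt (hl : 0 < l) {v : ℝ → E2 → E2}
    (hv : ∀ τ ∈ Ioo 0 C.T, ∀ x ∈ C.Om l, v τ x = C.vel l 0 τ x) :
    ∃ ε, C.Good ε ∧ (KE (C.Om l) C.T (C.rho l ε) (C.vel l ε)).toReal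
      < (KE (C.Om l) C.T (C.rho l 0) v).toReal := by
  obtain ⟨ε0, hε0, hg⟩ := C.exists_good
  obtain ⟨δ, B, hδ, hB, hE⟩ := En_le (C := C) (l := l)
  have hT := C.T0
  have hs : 0 < C.s1 - C.s0 := sub_pos.2 C.hs
  have hb : 0 < C.b1 - C.b0 := by linarith [C.o2, C.o3, C.o4, C.o5, C.o6, C.cT]
  set ε := min ε0 (δ * C.T ^ 2 / 12 / ((C.b1 - C.b0) * B + 1)) with hε
  have hε1 : 0 < ε := by positivity
  have hε2 : ε * ((C.b1 - C.b0) * B + 1) ≤ δ * C.T ^ 2 / 12 :=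
    (le_div_iff₀ (by positivity)).1 (min_le_right _ _)
  have h : C.Good ε := hg ε ⟨hε1.le, min_le_left _ _⟩
  refine ⟨ε, h, ?_⟩
  rw [good_zero.KE_eq hl hv, h.KE_eq hl (fun _ _ _ _ => rfl)]
  simp only [En_zero, lintegral_const, Measure.restrict_apply_univ, Real.volume_Ioo, sub_zero]
  rw [← ENNReal.ofReal_mul (by positivity), ENNReal.toReal_ofReal (by positivity)]
  let bd : ℝ → ℝ := fun τ => l ^ 4 * (C.s1 - C.s0) * ((C.b1 - C.b0) * (1 / 2 + ε ^ 2 * B)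
      + ε * (C.eta' τ * C.Ph C.be τ) - ε * C.eta τ * δ / 2)
  have c1 := C.Ph_cont C.be_cont
  have c2 := C.eta_cont
  have c3 := C.eta'_cont
  have bc : Continuous bd := by fun_prop
  have b0 : ∀ τ ∈ Icc 0 C.T, 0 ≤ bd τ := fun τ hτ => (h.En_nonneg hl hτ).trans (hE ε h τ hτ)
  have i1 : ∫ τ in (0:ℝ)..C.T, bd τ = l ^ 4 * (C.s1 - C.s0) * ((C.b1 - C.b0) * (1 / 2 + ε ^ 2 * B) * C.T
      - ε * δ * C.T ^ 3 / 12) := by
    rw [intervalIntegral.integral_eq_sub_of_hasDerivAt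
      (f := fun τ => l ^ 4 * (C.s1 - C.s0) * ((C.b1 - C.b0) * (1 / 2 + ε ^ 2 * B) * τ
        + ε * (C.eta τ * C.Ph C.be τ) - ε * δ / 2 * (C.T * τ ^ 2 / 2 - τ ^ 3 / 3)))
      (fun τ hτ => ?_) (bc.intervalIntegrable _ _)]
    · simp only [eta]; ring
    · rw [uIcc_of_le hT.le] at hτ
      have d1 := (hasDerivAt_id τ).const_mul ((C.b1 - C.b0) * (1 / 2 + ε ^ 2 * B))
      have d2 := ((C.eta_deriv τ).mul (C.Ph_deriv C.be_cont τ)).const_mul ε
      have d3 := (((((hasDerivAt_id τ).pow 2).const_mul C.T).div_const 2).sub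
        (((hasDerivAt_id τ).pow 3).div_const 3)).const_mul (ε * δ / 2)
      refine (((d1.add d2).sub d3).const_mul (l ^ 4 * (C.s1 - C.s0))).congr_deriv ?_
      simp only [bd, (C.be_lo hτ).1, (C.be_hi hτ).1, eta, id]
      push_cast
      ring
  have i2 : ∫⁻ τ in Ioo 0 C.T, ENNReal.ofReal (C.En l ε τ) ≤ ENNReal.ofReal (∫ τ in (0:ℝ)..C.T, bd τ) := by
    rw [intervalIntegral.integral_of_le hT.le, integral_Ioc_eq_integral_Ioo,
      ofReal_integral_eq_lintegral_ofReal]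
    · exact setLIntegral_mono' measurableSet_Ioo fun τ hτ =>
        ENNReal.ofReal_le_ofReal (hE ε h τ (Ioo_subset_Icc_self hτ))
    · exact (bc.continuousOn.integrableOn_compact isCompact_Icc).mono_set Ioo_subset_Icc_self
    · filter_upwards [ae_restrict_mem measurableSet_Ioo] with τ hτ using b0 τ (Ioo_subset_Icc_self hτ)
  have i3 := ENNReal.toReal_le_of_le_ofReal
    (intervalIntegral.integral_nonneg hT.le fun τ hτ => b0 τ hτ) i2
  refine i3.trans_lt ?_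
  rw [i1]
  have p1 : 0 < l ^ 4 * (C.s1 - C.s0) := by positivity
  have p2 : (C.b1 - C.b0) * (1 / 2 + ε ^ 2 * B) * C.T - ε * δ * C.T ^ 3 / 12
      < (C.b1 - C.b0) / 2 * C.T := by
    have := mul_le_mul_of_nonneg_left hε2 (mul_pos hε1 hT).le
    nlinarith [mul_pos (mul_pos hε1 hε1) hT]
  nlinarith [mul_lt_mul_of_pos_left p2 p1]

noncomputable def pE (C : Chan) (l : ℝ) (z : ℝ × E2) : ℝ := l ^ 2 * C.p (z.1, Li l z.2)

noncomputable def chi (C : Chan) (l : ℝ) (z : ℝ × E2) : ℝ := l ^ 2 * ((C.th l z.2).re - C.c * z.1 / 2)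

theorem inner_Li (hl : l ≠ 0) (P : ℂ) (y : E2) : l ^ 2 * inner ℝ P (Li l y) = inner ℝ (Lm l P) y := by
  rw [← inner_Lm, Lm_Li hl]

theorem pE_contDiffOn (hl : l ≠ 0) : ContDiffOn ℝ 1 (C.pE l) (Icc 0 C.T ×ˢ closure (C.Om l)) := by
  refine contDiffOn_const.mul (C.pc.comp
    (contDiff_fst.prodMk ((Li l).contDiff.comp contDiff_snd)).contDiffOn fun z hz => ⟨hz.1, ?_⟩)
  obtain ⟨w, hw, e⟩ := C.closure_Om_sub hz.2
  refine ⟨w, hw, ?_⟩
  simp only [← e, Kp, Li_Lm hl]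

theorem chi_contDiffOn (hl : l ≠ 0) : ContDiffOn ℝ 1 (C.chi l) (Icc 0 C.T ×ˢ closure (C.Om l)) := by
  refine contDiffOn_const.mul (ContDiffOn.sub ?_ (by fun_prop))
  intro z hz
  obtain ⟨w, hw, e⟩ := C.closure_Om_sub hz.2
  have h1 := C.th_contDiff hl (C.Rb_sub hw)
  rw [e] at h1
  exact (reCLM.contDiff.contDiffAt.comp z (h1.comp z contDiffAt_snd)).contDiffWithinAt

theorem derivs (hl : l ≠ 0) {τ : ℝ} (hτ : τ ∈ Ioo 0 C.T) {w : ℂ} (hw : w ∈ C.R) :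
    ∃ (pt : ℝ) (P : ℂ), pt - ‖P‖ ^ 2 / 2 = -((1 / C.kap w - C.c) / 2) ∧
      HasDerivAt (fun s => C.chi l (s, C.Kp l w) + C.pE l (s, C.Kp l w))
        (l ^ 2 * (pt - C.c / 2)) τ ∧
      HasGradientAt (fun y => C.pE l (τ, y)) (Lm l P) (C.Kp l w) ∧
      HasGradientAt (fun y => C.chi l (τ, y) + C.pE l (τ, y))
        (Lm l ((C.kap w)⁻¹ • C.k w + P)) (C.Kp l w) := by
  obtain ⟨pt, P, h1, h2⟩ := C.pd τ hτ w hw
  have hO := C.Rb_sub (C.R_sub hw)
  have e : Li l (C.Kp l w) = C.K w := Li_Lm hl _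
  have g1 : HasFDerivAt (fun y => C.pE l (τ, y)) (innerSL ℝ (Lm l P)) (C.Kp l w) := by
    rw [← e] at h1
    have := (h1.comp (C.Kp l w) ((hasFDerivAt_const τ _).prodMk (Li l).hasFDerivAt)).const_mul (l ^ 2)
    refine this.congr_fderiv ?_
    ext1 y
    simp [← inner_Li hl]
  have g2 : HasFDerivAt (fun y => C.chi l (τ, y)) (innerSL ℝ (Lm l ((C.kap w)⁻¹ • C.k w)))
      (C.Kp l w) := by
    have h3 := C.re_Th_fderiv hO
    rw [← e] at h3
    have := ((h3.comp (C.Kp l w) (Li l).hasFDerivAt).sub_const (C.c * τ / 2)).const_mul (l ^ 2)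
    refine this.congr_fderiv ?_
    ext1 y
    simp only [smul_apply, ContinuousLinearMap.comp_apply, innerSL_apply_apply,
      smul_eq_mul, inner_Li hl]
  refine ⟨pt, P, h2, ?_, ?_, ?_⟩
  · have d1 := (h1.comp_hasDerivAt τ ((hasDerivAt_id τ).prodMk (hasDerivAt_const τ (C.K w)))).const_mul
      (l ^ 2)
    have d2 := ((((hasDerivAt_id τ).const_mul C.c).div_const 2).const_sub
      (C.th l (C.Kp l w)).re).const_mul (l ^ 2)
    have d3 := d2.add d1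
    simp only [chi, pE, e]
    refine d3.congr_deriv ?_
    simp; ring
  · rw [hasGradientAt_iff_hasFDerivAt]
    exact g1
  · rw [hasGradientAt_iff_hasFDerivAt]
    refine (g2.add g1).congr_fderiv ?_
    ext1 y
    simp

theorem main (C : Chan) : ∃ (Ω : Set E2) (T : ℝ) (Φ ρ₀ : E2 → ℝ) (φ p : ℝ × E2 → ℝ)
    (ρ ρ' : ℝ → E2 → ℝ) (v' : ℝ → E2 → E2), IsOpen Ω ∧ Bornology.IsBounded Ω ∧ 0 < T ∧
    ContDiffOn ℝ 1 Φ (closure Ω) ∧ IntegrableOn ρ₀ Ω ∧ (∫ x in Ω, ρ₀ x) = 1 ∧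
    (∀ᵐ x ∂(volume.restrict Ω), 0 ≤ ρ₀ x ∧ ρ₀ x ≤ 1) ∧
    ContDiffOn ℝ 1 φ (Set.Icc 0 T ×ˢ closure Ω) ∧ ContDiffOn ℝ 1 p (Set.Icc 0 T ×ˢ closure Ω) ∧
    (∀ t ∈ Set.Ioo 0 T, ∀ x ∈ Ω,
      deriv (fun s => φ (s, x)) t + ‖gradient (fun y => φ (t, y)) x‖ ^ 2 / 2
        = inner ℝ (gradient (fun y => φ (t, y)) x) (gradient (fun y => p (t, y)) x)) ∧
    (∀ x ∈ closure Ω, φ (T, x) = Φ x) ∧
    AdmP Ω T ρ₀ ρ (fun t x => gradient (fun y => φ (t, y)) x - gradient (fun y => p (t, y)) x) ∧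
    (∀ z ∈ Set.Icc 0 T ×ˢ closure Ω, 0 ≤ p z) ∧
    (∀ᵐ z ∂(volume.restrict (Set.Ioo 0 T ×ˢ Ω)), p z * (1 - ρ z.1 z.2) = 0) ∧
    AdmP Ω T ρ₀ ρ' v' ∧
    (KE Ω T ρ' v').toReal - ∫ x in Ω, Φ x * ρ' T x <
      (KE Ω T ρ (fun t x => gradient (fun y => φ (t, y)) x - gradient (fun y => p (t, y)) x)).toReal
        - ∫ x in Ω, Φ x * ρ T x := by
  obtain ⟨l, hl, hM⟩ := exists_scale (C := C)
  have z : (0:ℝ) ∈ Icc 0 C.T := ⟨le_rfl, C.T0.le⟩
  have hφ := (chi_contDiffOn (C := C) hl.ne').add (pE_contDiffOn hl.ne')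
  have hv : ∀ τ ∈ Ioo 0 C.T, ∀ x ∈ C.Om l,
      gradient (fun y => C.chi l (τ, y) + C.pE l (τ, y)) x - gradient (fun y => C.pE l (τ, y)) x
        = C.vel l 0 τ x := by
    rintro τ hτ _ ⟨w, hw, rfl⟩
    obtain ⟨pt, P, -, -, h3, h4⟩ := derivs hl.ne' hτ hw
    rw [h3.gradient, h4.gradient, vel_Kp hl.ne' τ (C.R_sub hw)]
    simp [jj, mu, -real_smul]
  obtain ⟨ε, hε, hlt⟩ := KE_lt hl hv
  refine ⟨C.Om l, C.T, fun x => C.chi l (C.T, x) + C.pE l (C.T, x), C.rho l 0 0,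
    fun z => C.chi l z + C.pE l z, C.pE l, C.rho l 0, C.rho l ε, C.vel l ε, C.Om_open hl.ne',
    C.Om_bounded, C.T0, ?_, good_zero.rho_int hl.ne' z, hM, ?_, hφ, pE_contDiffOn hl.ne', ?_,
    fun _ _ => rfl, good_zero.adm hl hM hv, ?_, ?_, hε.adm hl hM fun _ _ _ _ => rfl, ?_⟩
  · exact hφ.comp (contDiff_const.prodMk contDiff_id).contDiffOn
      fun x hx => ⟨⟨C.T0.le, le_rfl⟩, hx⟩
  · filter_upwards [ae_restrict_mem (C.Om_open hl.ne').measurableSet] with x hx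
      using good_zero.rho_mem hl.ne' z hx
  · rintro τ hτ _ ⟨w, hw, rfl⟩
    obtain ⟨pt, P, h1, h2, h3, h4⟩ := derivs hl.ne' hτ hw
    have k0 := (C.kap_pos (C.Rb_sub (C.R_sub hw))).ne'
    have e : ‖(C.kap w)⁻¹ • C.k w‖ ^ 2 = 1 / C.kap w := by
      rw [norm_smul, mul_pow, Real.norm_eq_abs, sq_abs, show ‖C.k w‖ ^ 2 = C.kap w from rfl]
      field_simp
    rw [h2.deriv, h3.gradient, h4.gradient, norm_Lm, inner_Lm, norm_add_sq_real, inner_add_left,
      real_inner_self_eq_norm_sq, e]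
    linear_combination l ^ 2 * h1
  · intro z hz
    obtain ⟨w, hw, e⟩ := C.closure_Om_sub hz.2
    refine mul_nonneg (sq_nonneg _) ?_
    rw [← e, Kp, Li_Lm hl.ne']
    exact C.p0 _ hz.1 w hw
  · filter_upwards [ae_restrict_mem (A_meas hl.ne')] with z hz
    obtain ⟨w, hw, e⟩ := hz.2
    have hw' := C.R_sub hw
    have hτ := Ioo_subset_Icc_self hz.1
    by_cases hp : C.p (z.1, C.K w) = 0
    · simp only [pE, ← e, Kp, Li_Lm hl.ne', hp, mul_zero, zero_mul]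
    · obtain ⟨q1, q2, q3⟩ := C.psat _ hτ w hw' hp
      obtain ⟨-, o2, o3, -⟩ := C.lohi hτ
      have k0 := (C.kap_pos (C.Rb_sub hw')).ne'
      rw [← e, rho_Kp hl.ne' _ hw', if_pos ⟨o2.trans_lt q2, q3.trans_le o3⟩, q1]
      simp [mu, k0]
  · rw [rho_T l ε]
    linarith

end Chan

end Pool.Agent.H308Z.MFG
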