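import Pool.Agent.H308Z.MFG.Chan

set_option autoImplicit false
open MeasureTheory Set Filter Topology Complex

namespace Pool.Agent.H308Z.MFG

noncomputable def St (u v a : ℝ) : ℝ := Real.smoothTransition ((a - u) / (v - u))
noncomputable def St' (u v a : ℝ) : ℝ := deriv (St u v) a

theorem St_contDiff (u v : ℝ) : ContDiff ℝ 1 (St u v) :=
  (Real.smoothTransition.contDiff (n := 1)).comp ((contDiff_id.sub contDiff_const).div_const _)

theorem St_deriv (u v a : ℝ) : HasDerivAt (St u v) (St' u v a) a :=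
  ((St_contDiff u v).differentiable (by norm_num) a).hasDerivAt

theorem St_cont (u v : ℝ) : Continuous (St u v) := (St_contDiff u v).continuous

theorem St'_cont (u v : ℝ) : Continuous (St' u v) := (St_contDiff u v).continuous_deriv le_rfl

theorem St_zero {u v a : ℝ} (h : u < v) (ha : a ≤ u) : St u v a = 0 :=
  Real.smoothTransition.zero_of_nonpos (div_nonpos_of_nonpos_of_nonneg (by linarith) (by linarith))

theorem St_one {u v a : ℝ} (h : u < v) (ha : v ≤ a) : St u v a = 1 :=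
  Real.smoothTransition.one_of_one_le ((one_le_div (by linarith)).2 (by linarith))

theorem St'_nonneg {u v : ℝ} (h : u < v) (a : ℝ) : 0 ≤ St' u v a := by
  refine Monotone.deriv_nonneg fun x y hxy => Real.smoothTransition.monotone ?_
  exact div_le_div_of_nonneg_right (by linarith) (by linarith)

theorem St'_zero {u v a : ℝ} (h : u < v) (ha : a ∉ Icc u v) : St' u v a = 0 := by
  rw [mem_Icc, not_and_or, not_le, not_le] at ha
  rcases ha with ha | ha
  · have : St u v =ᶠ[𝓝 a] fun _ => 0 := by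
      filter_upwards [Iio_mem_nhds ha] with x hx using St_zero h (le_of_lt hx)
    rw [St', this.deriv_eq]; simp
  · have : St u v =ᶠ[𝓝 a] fun _ => 1 := by
      filter_upwards [Ioi_mem_nhds ha] with x hx using St_one h (le_of_lt hx)
    rw [St', this.deriv_eq]; simp

theorem St'_bdd {u v : ℝ} (h : u < v) : ∃ M, 0 < M ∧ ∀ a, St' u v a ≤ M := by
  obtain ⟨M, hM⟩ := (isCompact_Icc (a := u) (b := v)).exists_bound_of_continuousOn
    (St'_cont u v).continuousOn
  refine ⟨max M 1, by positivity, fun a => ?_⟩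
  by_cases ha : a ∈ Icc u v
  · exact ((le_abs_self _).trans (hM a ha)).trans (le_max_left _ _)
  · rw [St'_zero h ha]; positivity

namespace Chan

variable (C : Chan)

noncomputable def be (a : ℝ) : ℝ := St C.l1 C.r1 a - St C.l2 C.r2 a
noncomputable def be' (a : ℝ) : ℝ := St' C.l1 C.r1 a - St' C.l2 C.r2 a
noncomputable def eta (τ : ℝ) : ℝ := τ * (C.T - τ)
noncomputable def eta' (τ : ℝ) : ℝ := C.T - 2 * τ
noncomputable def mu (ε τ : ℝ) (w : ℂ) : ℝ := C.kap w - ε * C.eta τ * C.be' w.re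
noncomputable def jj (ε τ a : ℝ) : ℝ := 1 + ε * C.eta' τ * C.be a
noncomputable def lo (τ : ℝ) : ℝ := C.b0 + C.c * τ
noncomputable def hi (τ : ℝ) : ℝ := C.b1 + C.c * τ

noncomputable def rho (l ε τ : ℝ) (x : E2) : ℝ :=
  if (C.th l x).re ∈ Ioo (C.lo τ) (C.hi τ) then
    C.mu ε τ (C.th l x) / (C.m (C.th l x) * C.kap (C.th l x)) else 0

noncomputable def vel (l ε τ : ℝ) (x : E2) : E2 :=
  (C.jj ε τ (C.th l x).re / C.mu ε τ (C.th l x)) • Lm l (C.k (C.th l x))

noncomputable def Ph (H : ℝ → ℝ) (τ : ℝ) : ℝ := ∫ a in C.lo τ..C.hi τ, H a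

theorem be_deriv (a : ℝ) : HasDerivAt C.be (C.be' a) a := (St_deriv _ _ a).sub (St_deriv _ _ a)
theorem be_cont : Continuous C.be := (St_cont _ _).sub (St_cont _ _)
theorem be'_cont : Continuous C.be' := (St'_cont _ _).sub (St'_cont _ _)
theorem eta_deriv (τ : ℝ) : HasDerivAt C.eta (C.eta' τ) τ := by
  have := (hasDerivAt_id τ).mul ((hasDerivAt_const τ C.T).sub (hasDerivAt_id τ))
  refine this.congr_deriv ?_
  simp [eta']; ring
theorem eta_cont : Continuous C.eta := by unfold eta; fun_prop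
theorem eta'_cont : Continuous C.eta' := by unfold eta'; fun_prop

theorem eta_bd {τ : ℝ} (h : τ ∈ Icc 0 C.T) : 0 ≤ C.eta τ ∧ C.eta τ ≤ C.T ^ 2 := by
  unfold eta; constructor <;> nlinarith [h.1, h.2]

theorem lohi {τ : ℝ} (h : τ ∈ Icc 0 C.T) : C.a0 < C.lo τ ∧ C.lo τ ≤ C.b0 + C.c * C.T ∧
    C.b1 ≤ C.hi τ ∧ C.hi τ < C.a1 := by
  have h1 := mul_nonneg C.c0.le h.1
  have h2 := mul_le_mul_of_nonneg_left h.2 C.c0.le
  unfold lo hi
  refine ⟨?_, ?_, ?_, ?_⟩ <;> linarith [C.o1, C.o7]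

theorem lo_le_hi {τ : ℝ} (h : τ ∈ Icc 0 C.T) : C.lo τ ≤ C.hi τ := by
  have := C.lohi h
  linarith [C.o2, C.o3, C.o4, C.o5, C.o6]

theorem be_out {a : ℝ} (h : a < C.l1 ∨ C.r2 < a) : C.be a = 0 ∧ C.be' a = 0 := by
  have h3 := C.o3; have h4 := C.o4; have h5 := C.o5
  unfold be be'
  rw [St'_zero h3 (fun hh => by rcases h with h | h <;> linarith [hh.1, hh.2]),
    St'_zero h5 (fun hh => by rcases h with h | h <;> linarith [hh.1, hh.2])]
  rcases h with h | h
  · rw [St_zero h3 h.le, St_zero h5 (by linarith)]; simp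
  · rw [St_one h3 (by linarith), St_one h5 h.le]; simp

theorem be_lo {τ : ℝ} (h : τ ∈ Icc 0 C.T) : C.be (C.lo τ) = 0 ∧ C.be' (C.lo τ) = 0 :=
  C.be_out (Or.inl (by linarith [(C.lohi h).2.1, C.o2]))

theorem be_hi {τ : ℝ} (h : τ ∈ Icc 0 C.T) : C.be (C.hi τ) = 0 ∧ C.be' (C.hi τ) = 0 :=
  C.be_out (Or.inr (by linarith [(C.lohi h).2.2.1, C.o6]))

theorem Ph_deriv {H : ℝ → ℝ} (hH : Continuous H) (τ : ℝ) :
    HasDerivAt (C.Ph H) (C.c * (H (C.hi τ) - H (C.lo τ))) τ := by
  have e : C.Ph H = fun τ => (∫ a in (0:ℝ)..C.hi τ, H a) - ∫ a in (0:ℝ)..C.lo τ, H a := by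
    funext t
    rw [intervalIntegral.integral_interval_sub_left (hH.intervalIntegrable _ _)
      (hH.intervalIntegrable _ _)]
    rfl
  have h1 : HasDerivAt C.hi C.c τ :=
    (((hasDerivAt_id τ).const_mul C.c).const_add C.b1).congr_deriv (mul_one _)
  have h2 : HasDerivAt C.lo C.c τ :=
    (((hasDerivAt_id τ).const_mul C.c).const_add C.b0).congr_deriv (mul_one _)
  have h3 := (hH.integral_hasStrictDerivAt 0 (C.hi τ)).hasDerivAt.comp τ h1
  have h4 := (hH.integral_hasStrictDerivAt 0 (C.lo τ)).hasDerivAt.comp τ h2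
  rw [e]
  exact (h3.sub h4).congr_deriv (by ring)

theorem Ph_cont {H : ℝ → ℝ} (hH : Continuous H) : Continuous (C.Ph H) :=
  continuous_iff_continuousAt.2 fun τ => (C.Ph_deriv hH τ).continuousAt

def Good (ε : ℝ) : Prop :=
  0 ≤ ε ∧ ∀ τ ∈ Icc 0 C.T, ∀ w ∈ C.Rb, C.kap w / 2 ≤ C.mu ε τ w ∧ C.mu ε τ w ≤ C.m w * C.kap w

theorem strip_compact (u v : ℝ) : IsCompact (C.Rb ∩ re ⁻¹' Icc u v) :=
  C.Rb_compact.inter_right (isClosed_Icc.preimage continuous_re)

theorem kap_lb : ∃ κ, 0 < κ ∧ ∀ w ∈ C.Rb, κ ≤ C.kap w :=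
  C.Rb_compact.exists_forall_le' (C.kap_cont.mono C.Rb_sub) fun _ hw => C.kap_pos (C.Rb_sub hw)

theorem exists_good : ∃ ε0, 0 < ε0 ∧ ∀ ε ∈ Icc 0 ε0, C.Good ε := by
  obtain ⟨κ, hκ, hκ'⟩ := C.kap_lb
  obtain ⟨d, hd, hd'⟩ := (C.strip_compact C.l2 C.r2).exists_forall_le'
    (C.mc.mono (inter_subset_left.trans C.Rb_sub)) (a := 1) fun w hw => C.room w hw.1 hw.2
  obtain ⟨M1, hM1, hM1'⟩ := St'_bdd C.o3
  obtain ⟨M2, hM2, hM2'⟩ := St'_bdd C.o5
  have hT := C.T0
  have hd1 : 0 < d - 1 := by linarith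
  refine ⟨min (κ / 2 / (C.T ^ 2 * M1)) ((d - 1) * κ / (C.T ^ 2 * M2)), by positivity,
    fun ε hε => ⟨hε.1, fun τ hτ w hw => ?_⟩⟩
  have e1 : ε * (C.T ^ 2 * M1) ≤ κ / 2 :=
    (le_div_iff₀ (by positivity)).1 (hε.2.trans (min_le_left _ _))
  have e2 : ε * (C.T ^ 2 * M2) ≤ (d - 1) * κ :=
    (le_div_iff₀ (by positivity)).1 (hε.2.trans (min_le_right _ _))
  obtain ⟨n0, n1⟩ := C.eta_bd hτ
  have k1 := hκ' w hw
  have p1 := St'_nonneg C.o3 w.re
  have p2 := St'_nonneg C.o5 w.re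
  have q1 : ε * (C.eta τ * St' C.l1 C.r1 w.re) ≤ ε * (C.T ^ 2 * M1) :=
    mul_le_mul_of_nonneg_left (mul_le_mul n1 (hM1' _) p1 (by positivity)) hε.1
  have q2 : ε * (C.eta τ * St' C.l2 C.r2 w.re) ≤ ε * (C.T ^ 2 * M2) :=
    mul_le_mul_of_nonneg_left (mul_le_mul n1 (hM2' _) p2 (by positivity)) hε.1
  have q3 : 0 ≤ ε * (C.eta τ * St' C.l1 C.r1 w.re) := mul_nonneg hε.1 (mul_nonneg n0 p1)
  have q4 : 0 ≤ ε * (C.eta τ * St' C.l2 C.r2 w.re) := mul_nonneg hε.1 (mul_nonneg n0 p2)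
  have hm := C.m1 w (C.Rb_sub hw)
  unfold mu be'
  constructor
  · nlinarith
  · by_cases h : w.re ∈ Icc C.l2 C.r2
    · have := hd' w ⟨hw, h⟩
      have : (d - 1) * κ ≤ (C.m w - 1) * C.kap w := mul_le_mul (by linarith) k1 hκ.le (by linarith)
      nlinarith
    · rw [St'_zero C.o5 h]
      nlinarith

variable {C} {l ε : ℝ}

theorem Good.mu_pos (h : C.Good ε) {τ : ℝ} (hτ : τ ∈ Icc 0 C.T) {w : ℂ} (hw : w ∈ C.Rb) :
    0 < C.mu ε τ w := by
  linarith [(h.2 τ hτ w hw).1, C.kap_pos (C.Rb_sub hw)]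

theorem mk_pos {w : ℂ} (hw : w ∈ C.Rb) : 0 < C.m w * C.kap w :=
  mul_pos (by linarith [C.m1 w (C.Rb_sub hw)]) (C.kap_pos (C.Rb_sub hw))

theorem rho_Kp (hl : l ≠ 0) (τ : ℝ) {w : ℂ} (hw : w ∈ C.Rb) : C.rho l ε τ (C.Kp l w) =
    if w.re ∈ Ioo (C.lo τ) (C.hi τ) then C.mu ε τ w / (C.m w * C.kap w) else 0 := by
  rw [rho, C.th_Kp hl (C.Rb_sub hw)]

theorem vel_Kp (hl : l ≠ 0) (τ : ℝ) {w : ℂ} (hw : w ∈ C.Rb) : C.vel l ε τ (C.Kp l w) =
    (C.jj ε τ w.re / C.mu ε τ w) • Lm l (C.k w) := by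
  rw [vel, C.th_Kp hl (C.Rb_sub hw)]

theorem Good.rho_mem (h : C.Good ε) (hl : l ≠ 0) {τ : ℝ} (hτ : τ ∈ Icc 0 C.T) {x : E2}
    (hx : x ∈ C.Om l) : 0 ≤ C.rho l ε τ x ∧ C.rho l ε τ x ≤ 1 := by
  obtain ⟨w, hw, rfl⟩ := hx
  have hw' := C.R_sub hw
  rw [rho_Kp hl τ hw']
  split_ifs
  · exact ⟨div_nonneg (h.mu_pos hτ hw').le (mk_pos hw').le,
      (div_le_one (mk_pos hw')).2 (h.2 τ hτ w hw').2⟩
  · simp

theorem mu_contOn : ContinuousOn (fun z : ℝ × ℂ => C.mu ε z.1 z.2) (univ ×ˢ C.Rb) := by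
  unfold mu
  refine ((C.kap_cont.mono C.Rb_sub).comp continuousOn_snd fun z hz => hz.2).sub ?_
  exact ((continuous_const.mul (C.eta_cont.comp continuous_fst)).mul
    (C.be'_cont.comp (continuous_re.comp continuous_snd))).continuousOn

theorem jj_cont : Continuous (fun z : ℝ × ℝ => C.jj ε z.1 z.2) := by
  unfold jj
  exact continuous_const.add ((continuous_const.mul (C.eta'_cont.comp continuous_fst)).mul
    (C.be_cont.comp continuous_snd))

theorem th2_contOn (hl : l ≠ 0) : ContinuousOn (fun z : ℝ × E2 => (z.1, C.th l z.2))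
    (Icc 0 C.T ×ˢ (C.Kp l '' C.Rb)) :=
  continuousOn_fst.prodMk ((C.th_contOn hl).comp continuousOn_snd fun _ hz => hz.2)

theorem Good.vel_contOn (h : C.Good ε) (hl : l ≠ 0) :
    ContinuousOn (fun z : ℝ × E2 => C.vel l ε z.1 z.2) (Icc 0 C.T ×ˢ (C.Kp l '' C.Rb)) := by
  have h1 : ContinuousOn (fun z : ℝ × ℂ => (C.jj ε z.1 z.2.re / C.mu ε z.1 z.2) • Lm l (C.k z.2))
      (Icc 0 C.T ×ˢ C.Rb) := by
    refine ContinuousOn.smul (ContinuousOn.div ?_ (mu_contOn.mono (prod_mono (subset_univ _) Subset.rfl))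
      fun z hz => (h.mu_pos hz.1 hz.2).ne') ?_
    · exact (jj_cont.comp (continuous_fst.prodMk (continuous_re.comp continuous_snd))).continuousOn
    · exact (Lm l).continuous.comp_continuousOn
        ((C.kc.mono C.Rb_sub).comp continuousOn_snd fun z hz => hz.2)
  have h2 := h1.comp (th2_contOn hl) fun z hz => ⟨hz.1, C.th_maps hl hz.2⟩
  refine h2.congr fun z _ => ?_
  simp only [vel, Function.comp]

theorem aem_rho (hl : l ≠ 0) {Z : Type*} [TopologicalSpace Z] [MeasurableSpace Z]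
    [OpensMeasurableSpace Z] (ν : Measure Z) {A : Set Z} (hA : MeasurableSet A) {f : Z → ℝ × E2}
    (hf : Continuous f) (hm : MapsTo f A (Icc 0 C.T ×ˢ (C.Kp l '' C.Rb))) :
    AEMeasurable (fun z => C.rho l ε (f z).1 (f z).2) (ν.restrict A) := by
  have h0 := (th2_contOn (C := C) hl).comp hf.continuousOn hm
  have hm' : MapsTo ((fun z : ℝ × E2 => (z.1, C.th l z.2)) ∘ f) A (univ ×ˢ C.Rb) :=
    fun z hz => ⟨mem_univ _, C.th_maps hl (hm hz).2⟩
  have h1 : ContinuousOn (fun z : ℝ × ℂ => C.mu ε z.1 z.2 / (C.m z.2 * C.kap z.2)) (univ ×ˢ C.Rb) :=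
    mu_contOn.div (((C.mc.mul C.kap_cont).mono C.Rb_sub).comp continuousOn_snd fun z hz => hz.2)
      fun z hz => (mk_pos hz.2).ne'
  have h2 := (h1.comp h0 hm').aemeasurable (μ := ν) hA
  have h3 : ContinuousOn (fun z => (C.th l (f z).2).re - C.c * (f z).1) A :=
    (continuous_re.comp_continuousOn (continuous_snd.comp_continuousOn h0)).sub
      (continuous_const.mul (continuous_fst.comp hf)).continuousOn
  have h4 := (h3.aemeasurable (μ := ν) hA).nullMeasurableSet_preimage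
    (measurableSet_Ioo (a := C.b0) (b := C.b1))
  have h5 := h2.indicator₀ h4
  refine h5.congr (Eventually.of_forall fun z => ?_)
  simp only [indicator, rho, mem_preimage, mem_Ioo, lo, hi, Function.comp]
  congr 1
  apply propext
  constructor <;> rintro ⟨a, b⟩ <;> constructor <;> linarith

theorem Om_vol : volume (C.Om l) ≠ ⊤ := C.Om_bounded.measure_lt_top.ne

theorem Good.rho_int (h : C.Good ε) (hl : l ≠ 0) {τ : ℝ} (hτ : τ ∈ Icc 0 C.T) :
    IntegrableOn (C.rho l ε τ) (C.Om l) := by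
  have hm := aem_rho (C := C) (ε := ε) hl volume (C.Om_open hl).measurableSet
    (f := fun x => (τ, x)) (by fun_prop) fun x hx => ⟨hτ, image_mono C.R_sub hx⟩
  refine IntegrableOn.of_bound Om_vol.lt_top hm.aestronglyMeasurable 1 ?_
  filter_upwards [ae_restrict_mem (C.Om_open hl).measurableSet] with x hx
  rw [Real.norm_eq_abs, abs_of_nonneg (h.rho_mem hl hτ hx).1]
  exact (h.rho_mem hl hτ hx).2

theorem test (h : C.Good ε) (hl : 0 < l) {ψ : E2 → ℝ} (hψ : ContDiffOn ℝ 1 ψ (closure (C.Om l))) :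
    ∃ F F' : ℝ → ℝ, (∀ τ, HasDerivAt F (F' τ) τ) ∧ Continuous F' ∧
      (∀ τ ∈ Icc 0 C.T, ∫ x in C.Om l, ψ x * C.rho l ε τ x = F τ) ∧
      ∀ τ ∈ Icc 0 C.T, ∫ x in C.Om l, inner ℝ (gradient ψ x) (C.vel l ε τ x) * C.rho l ε τ x
        = F' τ := by
  have hψt : ContDiffOn ℝ 1 (ψ ∘ C.Kp l) C.Rb :=
    hψ.comp (C.Kp_contDiffOn.mono C.Rb_sub) C.maps_closure
  let g : ℝ → ℝ → ℝ := fun a s => ψ (C.Kp l (C.pr a s))
  let d : ℝ → ℝ → ℝ := fun a s => fderivWithin ℝ (ψ ∘ C.Kp l) C.Rb (C.pr a s) 1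
  let κ : ℝ → ℝ → ℝ := fun a s => C.kap (C.pr a s)
  have gc : Continuous (Function.uncurry g) := C.comp_pr hψt.continuousOn
  have dc : Continuous (Function.uncurry d) :=
    C.comp_pr ((hψt.continuousOn_fderivWithin C.Rb_unique le_rfl).clm_apply continuousOn_const)
  have κc : Continuous (Function.uncurry κ) := C.comp_pr (C.kap_cont.mono C.Rb_sub)
  have gs : ∀ a, Continuous (g a) := fun a => gc.uncurry_left a
  have κs : ∀ a, Continuous (κ a) := fun a => κc.uncurry_left a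
  have ga : ∀ s, Continuous fun a => g a s := fun s => gc.uncurry_right s
  have da : ∀ s, Continuous fun a => d a s := fun s => dc.uncurry_right s
  let H0 : ℝ → ℝ := fun a => ∫ s in C.s0..C.s1, g a s
  let H1 : ℝ → ℝ := fun a => ∫ s in C.s0..C.s1, g a s * κ a s
  have c0 : Continuous H0 := intervalIntegral.continuous_parametric_intervalIntegral_of_continuous' gc _ _
  have c1 : Continuous H1 := intervalIntegral.continuous_parametric_intervalIntegral_of_continuous'
    (f := fun a s => g a s * κ a s) (gc.mul κc) _ _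
  have c2 : Continuous fun a => C.be' a * H0 a := C.be'_cont.mul c0
  have hlo : Continuous C.lo := by unfold lo; fun_prop
  have hhi : Continuous C.hi := by unfold hi; fun_prop
  have hfd : ∀ w ∈ C.R, HasFDerivAt (ψ ∘ C.Kp l) (fderivWithin ℝ (ψ ∘ C.Kp l) C.Rb w) w := fun w hw =>
    (hψt.differentiableOn (by norm_num) w (C.R_sub hw)).hasFDerivWithinAt.hasFDerivAt
      (mem_of_superset (C.R_open.mem_nhds hw) C.R_sub)
  refine ⟨fun τ => l ^ 2 * (C.Ph H1 τ - ε * (C.eta τ * C.Ph (fun a => C.be' a * H0 a) τ)),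
    fun τ => l ^ 2 * (C.c * (H1 (C.hi τ) - H1 (C.lo τ)) - ε * (C.eta' τ * C.Ph (fun a => C.be' a * H0 a) τ
      + C.eta τ * (C.c * (C.be' (C.hi τ) * H0 (C.hi τ) - C.be' (C.lo τ) * H0 (C.lo τ))))),
    fun τ => ((C.Ph_deriv c1 τ).sub (((C.eta_deriv τ).mul (C.Ph_deriv c2 τ)).const_mul ε)).const_mul _,
    ?_, fun τ hτ => ?_, fun τ hτ => ?_⟩
  · have := C.Ph_cont c2
    have := C.eta_cont
    have := C.eta'_cont
    have := C.be'_cont
    fun_prop
  · obtain ⟨o1, -, -, o4⟩ := C.lohi hτ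
    rw [C.front hl _ (G := fun a s => l ^ 2 * (g a s * κ a s - ε * (C.eta τ * (C.be' a * g a s))))
      (by
        have := C.be'_cont.comp (continuous_fst (X := ℝ) (Y := ℝ))
        exact continuous_const.mul ((gc.mul κc).sub (continuous_const.mul
          (continuous_const.mul (this.mul gc)))))
      o1.le (C.lo_le_hi hτ) o4.le
      (fun w hw => by
        have hw' := C.R_sub hw
        have := (C.kap_pos (C.Rb_sub hw')).ne'
        have : C.m w ≠ 0 := by linarith [C.m1 w (C.Rb_sub hw')]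
        rw [rho_Kp hl.ne' τ hw']
        split_ifs
        · simp only [g, κ, C.pr_eq hw', mu]
          field_simp
        · simp)]
    have e : ∀ a, ∫ s in C.s0..C.s1, l ^ 2 * (g a s * κ a s - ε * (C.eta τ * (C.be' a * g a s)))
        = l ^ 2 * (H1 a - ε * (C.eta τ * (C.be' a * H0 a))) := fun a => by
      have := gs a
      have := κs a
      rw [intervalIntegral.integral_const_mul, intervalIntegral.integral_sub]
      · simp only [intervalIntegral.integral_const_mul, H0, H1]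
      all_goals exact Continuous.intervalIntegrable (by fun_prop) _ _
    simp only [e]
    have := C.be'_cont
    rw [intervalIntegral.integral_const_mul, intervalIntegral.integral_sub]
    · simp only [intervalIntegral.integral_const_mul, Ph]
    all_goals exact Continuous.intervalIntegrable (by fun_prop) _ _
  · obtain ⟨o1, o2, o3, o4⟩ := C.lohi hτ
    have olh := C.lo_le_hi hτ
    have jc : Continuous (C.jj ε τ) := jj_cont.comp (Continuous.prodMk_right τ)
    have Gc : Continuous (Function.uncurry fun a s => l ^ 2 * (C.jj ε τ a * d a s)) :=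
      continuous_const.mul ((jc.comp continuous_fst).mul dc)
    rw [C.front hl _ Gc o1.le olh o4.le
      (fun w hw => by
        have hw' := C.R_sub hw
        have := (C.kap_pos (C.Rb_sub hw')).ne'
        have : C.m w ≠ 0 := by linarith [C.m1 w (C.Rb_sub hw')]
        have := (h.mu_pos hτ hw').ne'
        rw [rho_Kp hl.ne' τ hw', vel_Kp hl.ne' τ hw']
        have hx : closure (C.Om l) ∈ 𝓝 (C.Kp l w) :=
          mem_of_superset ((C.Om_open hl.ne').mem_nhds (mem_image_of_mem _ hw)) subset_closure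
        have h1 := ((hψ.contDiffAt hx).differentiableAt (by norm_num)).hasFDerivAt
        have h2 := h1.comp w ((Lm l).hasFDerivAt.comp w (C.hK w (C.Rb_sub hw')))
        have h3 := (hfd w hw).unique h2
        have h4 : d w.re w.im = fderiv ℝ ψ (C.Kp l w) (Lm l (C.k w)) := by
          simp only [d, C.pr_eq hw', h3, ContinuousLinearMap.comp_apply, DD_apply]
          simp
        split_ifs
        · rw [inner_smul_right, inner_gradient_left, h4]
          field_simp
        · simp), swap_int Gc]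
    have e : ∀ s ∈ Ioo C.s0 C.s1, ∫ a in C.lo τ..C.hi τ, l ^ 2 * (C.jj ε τ a * d a s)
        = l ^ 2 * (g (C.hi τ) s - g (C.lo τ) s
          - ε * (C.eta' τ * ∫ a in C.lo τ..C.hi τ, C.be' a * g a s)) := fun s hs => by
      have hj : ∀ a, HasDerivAt (C.jj ε τ) (ε * C.eta' τ * C.be' a) a := fun a =>
        ((C.be_deriv a).const_mul _).const_add 1
      have hg : ∀ a ∈ uIcc (C.lo τ) (C.hi τ), HasDerivAt (fun a => g a s) (d a s) a := fun a ha => by
        rw [uIcc_of_le olh] at ha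
        have ha' : a ∈ Ioo C.a0 C.a1 := ⟨o1.trans_le ha.1, ha.2.trans_lt o4⟩
        have hw : (⟨a, s⟩ : ℂ) ∈ C.R := ⟨ha', hs⟩
        have h1 : HasDerivAt (fun a : ℝ => ((a : ℂ) + s * I)) 1 a :=
          (ofRealCLM.hasDerivAt (x := a)).add_const _
        have h2 : ((a : ℂ) + s * I) = ⟨a, s⟩ := by apply Complex.ext <;> simp
        have h3 := hfd _ hw
        rw [← h2] at h3
        have h4 := h3.comp_hasDerivAt a h1
        have h5 : C.pr a s = (a : ℂ) + s * I := by rw [h2]; exact C.pr_eq (C.R_sub hw)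
        refine HasDerivAt.congr_of_eventuallyEq (by simpa only [d, h5] using h4) ?_
        filter_upwards [Ioo_mem_nhds ha'.1 ha'.2] with b hb
        have hw' : (⟨b, s⟩ : ℂ) ∈ C.R := ⟨hb, hs⟩
        have h6 : C.pr b s = (b : ℂ) + s * I := by
          rw [show ((b : ℂ) + s * I) = ⟨b, s⟩ by apply Complex.ext <;> simp]
          exact C.pr_eq (C.R_sub hw')
        simp only [g, h6, Function.comp]
      rw [intervalIntegral.integral_const_mul, intervalIntegral.integral_mul_deriv_eq_deriv_mul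
        (fun a _ => hj a) hg ((continuous_const.mul C.be'_cont).intervalIntegrable _ _)
        ((da s).intervalIntegrable _ _)]
      simp only [jj, (C.be_lo hτ).1, (C.be_hi hτ).1, mul_assoc, intervalIntegral.integral_const_mul]
      ring
    have bc : Continuous (Function.uncurry fun a s => C.be' a * g a s) :=
      (C.be'_cont.comp continuous_fst).mul gc
    have ic : Continuous fun s => ∫ a in C.lo τ..C.hi τ, C.be' a * g a s :=
      intervalIntegral.continuous_parametric_intervalIntegral_of_continuous'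
        (f := fun s a => C.be' a * g a s) (bc.comp continuous_swap) _ _
    rw [intervalIntegral.integral_of_le C.hs.le, integral_Ioc_eq_integral_Ioo,
      setIntegral_congr_fun measurableSet_Ioo e, ← integral_Ioc_eq_integral_Ioo,
      ← intervalIntegral.integral_of_le C.hs.le, intervalIntegral.integral_const_mul,
      intervalIntegral.integral_sub (f := fun s => g (C.hi τ) s - g (C.lo τ) s)
        (((gs _).sub (gs _)).intervalIntegrable _ _)
        (g := fun s => ε * (C.eta' τ * ∫ a in C.lo τ..C.hi τ, C.be' a * g a s))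
        ((continuous_const.mul (continuous_const.mul ic)).intervalIntegrable _ _),
      intervalIntegral.integral_sub ((gs _).intervalIntegrable _ _) ((gs _).intervalIntegrable _ _),
      intervalIntegral.integral_const_mul, intervalIntegral.integral_const_mul, ← swap_int bc]
    have hH : ∀ a ∈ Icc C.a0 C.a1, (a ≤ C.b0 + C.c * C.T ∨ C.l2 ≤ a) → H1 a = H0 a * (1 / C.c) := by
      intro a ha hh
      have : ∀ s, κ a s = 1 / C.c := fun s =>
        C.outer _ (C.pr_mem a s) (by rwa [C.pr_re ha])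
      simp only [H1, H0, this, intervalIntegral.integral_mul_const]
    beta_reduce
    rw [hH _ ⟨o1.le, olh.trans o4.le⟩ (Or.inl o2),
      hH _ ⟨o1.le.trans olh, o4.le⟩ (Or.inr (by linarith [C.o5, C.o6])),
      (C.be_lo hτ).2, (C.be_hi hτ).2]
    have := C.c0.ne'
    simp only [intervalIntegral.integral_const_mul, Ph, H0]
    field_simp
    ring

end Chan

end Pool.Agent.H308Z.MFG
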