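import Pool.Agent.H308Z.MFG.Chan

set_option autoImplicit false
open MeasureTheory Set Filter Topology Complex

namespace Pool.Agent.H308Z.MFG

def Orth (U : Set ℂ) (f k : ℂ → ℂ) (m : ℂ → ℝ) : Prop :=
  (∀ w ∈ U, HasFDerivAt f (DD (k w) (m w)) w) ∧ ContinuousOn k U ∧ ContinuousOn m U

theorem contOn_if {X : Type*} [TopologicalSpace X] {U : Set ℂ} (hU : IsOpen U) {σ : ℂ → ℝ}
    (hσ : ContinuousOn σ U) {f g : ℂ → X} (hf : ContinuousOn f U) (hg : ContinuousOn g U)
    (h : ∀ w ∈ U, σ w = 0 → f w = g w) : ContinuousOn (fun w => if σ w ≤ 0 then f w else g w) U := by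
  intro w hw
  have hn := hU.mem_nhds hw
  have c := hσ.continuousAt hn
  refine ContinuousAt.continuousWithinAt ?_
  rcases lt_trichotomy (σ w) 0 with h1 | h1 | h1
  · refine (hf.continuousAt hn).congr ?_
    filter_upwards [c.eventually (Iio_mem_nhds h1)] with x hx using (if_pos (le_of_lt hx)).symm
  · have e : (if σ w ≤ 0 then f w else g w) = f w := if_pos h1.le
    unfold ContinuousAt
    beta_reduce
    rw [e]
    exact Tendsto.if' (hf.continuousAt hn) (by rw [h w hw h1]; exact hg.continuousAt hn)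
  · refine (hg.continuousAt hn).congr ?_
    filter_upwards [c.eventually (Ioi_mem_nhds h1)] with x hx using (if_neg (not_le.2 hx)).symm

theorem Orth.glue {U : Set ℂ} (hU : IsOpen U) {σ : ℂ → ℝ} (hσ : ContinuousOn σ U)
    {f kf g kg : ℂ → ℂ} {mf mg : ℂ → ℝ} (hf : Orth U f kf mf) (hg : Orth U g kg mg)
    (h : ∀ w ∈ U, σ w = 0 → f w = g w ∧ kf w = kg w ∧ mf w = mg w) :
    Orth U (fun w => if σ w ≤ 0 then f w else g w) (fun w => if σ w ≤ 0 then kf w else kg w)
      (fun w => if σ w ≤ 0 then mf w else mg w) := by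
  refine ⟨fun w hw => ?_, contOn_if hU hσ hf.2.1 hg.2.1 fun w hw h0 => (h w hw h0).2.1,
    contOn_if hU hσ hf.2.2 hg.2.2 fun w hw h0 => (h w hw h0).2.2⟩
  have c := hσ.continuousAt (hU.mem_nhds hw)
  rcases lt_trichotomy (σ w) 0 with h1 | h1 | h1
  · simp only [if_pos h1.le]
    refine (hf.1 w hw).congr_of_eventuallyEq ?_
    filter_upwards [c.eventually (Iio_mem_nhds h1)] with x hx using if_pos (le_of_lt hx)
  · obtain ⟨e1, e2, e3⟩ := h w hw h1
    have a := hf.1 w hw
    have b := hg.1 w hw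
    rw [← e2, ← e3] at b
    rw [hasFDerivAt_iff_tendsto] at a b ⊢
    simp only [if_pos h1.le]
    rw [← e1] at b
    refine (Tendsto.if' (p := fun x => σ x ≤ 0) a b).congr fun x => ?_
    split_ifs <;> rfl
  · simp only [if_neg (not_le.2 h1)]
    refine (hg.1 w hw).congr_of_eventuallyEq ?_
    filter_upwards [c.eventually (Ioi_mem_nhds h1)] with x hx using if_neg (not_le.2 hx)

theorem Orth.contDiffOn {U : Set ℂ} (hU : IsOpen U) {f k : ℂ → ℂ} {m : ℂ → ℝ} (h : Orth U f k m) :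
    ContDiffOn ℝ 1 f U := by
  rw [show (1 : WithTop ℕ∞) = 0 + 1 by simp, contDiffOn_succ_iff_fderiv_of_isOpen hU]
  refine ⟨fun z hz => (h.1 z hz).differentiableAt.differentiableWithinAt, by simp, ?_⟩
  rw [contDiffOn_zero]
  have : ContinuousOn (fun w => DD (k w) (m w)) U := by
    unfold DD
    exact ((ContinuousLinearMap.smulRightL ℝ ℂ ℂ reCLM).continuous.comp_continuousOn h.2.1).add
      ((ContinuousLinearMap.smulRightL ℝ ℂ ℂ imCLM).continuous.comp_continuousOn
        (((continuous_ofReal.comp_continuousOn h.2.2).mul continuousOn_const).mul h.2.1))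
  exact this.congr fun z hz => (h.1 z hz).fderiv

noncomputable def sq2 (z : ℂ) : ℂ := z ^ (2⁻¹ : ℂ)

theorem sq2_sq (z : ℂ) : sq2 z ^ 2 = z := cpow_ofNat_inv_pow z 2

theorem sq2_of_sq {t : ℂ} (h : 0 < t.re) : sq2 (t ^ 2) = t := sq_cpow_two_inv h

theorem sq2_re_pos {z : ℂ} (h : z ∈ slitPlane) : 0 < (sq2 z).re := by
  rw [sq2, cpow_inv_two_re]
  refine Real.sqrt_pos.2 (div_pos ?_ two_pos)
  rcases h with h | h
  · linarith [norm_nonneg z]
  · have := abs_re_lt_norm.2 h
    linarith [neg_abs_le z.re]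

theorem sq2_ne {z : ℂ} (h : z ∈ slitPlane) : sq2 z ≠ 0 := fun e => by
  have := sq2_re_pos h
  rw [e] at this
  simp at this

theorem sq2_deriv {z : ℂ} (h : z ∈ slitPlane) : HasDerivAt sq2 (1 / (2 * sq2 z)) z := by
  have hd : DifferentiableAt ℂ sq2 z := differentiableAt_id.cpow_const h
  have h1 := hd.hasDerivAt.pow 2
  have e : (sq2 ^ 2) = id := funext sq2_sq
  rw [e] at h1
  have h2 := h1.unique (hasDerivAt_id z)
  refine hd.hasDerivAt.congr_deriv ?_
  have := sq2_ne h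
  field_simp
  simp at h2
  linear_combination h2

theorem sq2_contDiffAt {z : ℂ} (h : z ∈ slitPlane) (n : WithTop ℕ∞) : ContDiffAt ℝ n sq2 z := by
  have : DifferentiableOn ℂ sq2 slitPlane := fun z hz =>
    (sq2_deriv hz).differentiableAt.differentiableWithinAt
  exact ((this.contDiffOn isOpen_slitPlane).contDiffAt (isOpen_slitPlane.mem_nhds h)).restrict_scalars ℝ

theorem sq_mem_slit {t : ℂ} (h : 0 < t.re) : t ^ 2 ∈ slitPlane := by
  by_cases hy : t.im = 0
  · left; simp [sq, hy]; exact h.ne'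
  · right; simp [sq]; intro e
    have : t.re * t.im = 0 := by linarith
    rcases mul_eq_zero.1 this with a | a
    · exact h.ne' a
    · exact hy a

def U : Set ℂ := {w | w.im ∈ Ioo (157 / 100 : ℝ) (159 / 100)}

theorem U_open : IsOpen U := isOpen_Ioo.preimage continuous_im

noncomputable def rt (w : ℂ) : ℂ := sq2 (-I * w)
noncomputable def Kin (w : ℂ) : ℂ := (2 - rt w) ^ 2
noncomputable def kin (w : ℂ) : ℂ := I * (2 - rt w) / rt w
noncomputable def k2 (w : ℂ) : ℂ := -1 / rt w ^ 3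
noncomputable def NN (w : ℂ) : ℝ := 3 - ‖rt w - 3‖ ^ 2
noncomputable def sg (s : ℝ) : ℝ := (3 + √(2 * s - 3)) / 2
noncomputable def s2 (s : ℝ) : ℝ := √(sg s ^ 2 - s)
noncomputable def al (s : ℝ) : ℝ := 2 * sg s * s2 s

theorem slit {w : ℂ} (h : w ∈ U) : -I * w ∈ slitPlane := by
  left; simp; linarith [h.1]

theorem rt_re {w : ℂ} (h : w ∈ U) : 0 < (rt w).re := sq2_re_pos (slit h)
theorem rt_ne {w : ℂ} (h : w ∈ U) : rt w ≠ 0 := sq2_ne (slit h)
theorem rt_sq (w : ℂ) : rt w ^ 2 = -I * w := sq2_sq _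

theorem rt_eq1 (w : ℂ) : (rt w).re ^ 2 - (rt w).im ^ 2 = w.im := by
  have := congrArg re (rt_sq w)
  simp [sq] at this
  linarith

theorem rt_eq2 (w : ℂ) : 2 * (rt w).re * (rt w).im = -w.re := by
  have := congrArg im (rt_sq w)
  simp [sq] at this
  linarith

theorem rt_deriv {w : ℂ} (h : w ∈ U) : HasDerivAt rt (-I / (2 * rt w)) w := by
  have := (sq2_deriv (slit h)).comp w ((hasDerivAt_id w).const_mul (-I))
  refine this.congr_deriv ?_
  simp only [rt]; ring

theorem rt_contDiffAt {w : ℂ} (h : w ∈ U) (n : WithTop ℕ∞) : ContDiffAt ℝ n rt w :=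
  (sq2_contDiffAt (slit h) n).comp w (contDiffAt_const.mul contDiffAt_id)

theorem rt_cont : ContinuousOn rt U := fun _ h => (rt_deriv h).continuousAt.continuousWithinAt

theorem Kin_deriv {w : ℂ} (h : w ∈ U) : HasDerivAt Kin (kin w) w := by
  have := ((rt_deriv h).const_sub 2).pow 2
  refine this.congr_deriv ?_
  have := rt_ne h
  simp only [kin]
  field_simp
  simp

theorem kin_deriv {w : ℂ} (h : w ∈ U) : HasDerivAt kin (k2 w) w := by
  have := ((((rt_deriv h).const_sub 2).const_mul I).div (rt_deriv h) (rt_ne h))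
  refine this.congr_deriv ?_
  have := rt_ne h
  simp only [k2]
  field_simp
  linear_combination (2 : ℂ) * I_sq

theorem kin_cont : ContinuousOn kin U := fun _ h => (kin_deriv h).continuousAt.continuousWithinAt

theorem k2_cont : ContinuousOn k2 U :=
  continuousOn_const.div (rt_cont.pow 3) fun _ h => pow_ne_zero _ (rt_ne h)

theorem two_sub_ne {w : ℂ} (h : w ∈ U) : 2 - rt w ≠ 0 := fun e => by
  have e' : rt w = 2 := by linear_combination -e
  have := rt_eq1 w
  rw [e'] at this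
  simp at this
  linarith [h.2]

theorem kin_ne {w : ℂ} (h : w ∈ U) : kin w ≠ 0 :=
  div_ne_zero (mul_ne_zero I_ne_zero (two_sub_ne h)) (rt_ne h)

theorem NN_eq (w : ℂ) : NN w = -2 * (rt w).re ^ 2 + 6 * (rt w).re - 6 + w.im := by
  rw [NN, Complex.sq_norm, normSq_apply, ← rt_eq1 w]
  simp; ring

theorem kin_norm {w : ℂ} (h : w ∈ U) : 1 / ‖kin w‖ ^ 2 - 3 = 2 * NN w / ‖2 - rt w‖ ^ 2 := by
  have h1 := norm_ne_zero_iff.2 (two_sub_ne h)
  have h2 := norm_ne_zero_iff.2 (rt_ne h)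
  rw [kin, norm_div, norm_mul, norm_I, one_mul]
  field_simp
  simp only [NN, Complex.sq_norm, normSq_apply]
  simp; ring

theorem sg_bd {s : ℝ} (h : s ∈ Ioo (157 / 100 : ℝ) (159 / 100)) :
    168 / 100 < sg s ∧ sg s < 172 / 100 ∧ 2 * sg s ^ 2 - 6 * sg s + 6 = s := by
  have h0 : 0 ≤ 2 * s - 3 := by linarith [h.1]
  have h1 := Real.sq_sqrt h0
  have h2 : 36 / 100 < √(2 * s - 3) := Real.lt_sqrt_of_sq_lt (by linarith [h.1])
  have h3 : √(2 * s - 3) < 44 / 100 := (Real.sqrt_lt' (by norm_num)).2 (by linarith [h.2])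
  unfold sg
  refine ⟨by linarith, by linarith, by nlinarith⟩

theorem s2_bd {s : ℝ} (h : s ∈ Ioo (157 / 100 : ℝ) (159 / 100)) :
    1 < s2 s ∧ s2 s ^ 2 = sg s ^ 2 - s := by
  obtain ⟨a, b, c⟩ := sg_bd h
  have h0 : 1 < sg s ^ 2 - s := by nlinarith [h.2]
  exact ⟨Real.lt_sqrt_of_sq_lt (by linarith), Real.sq_sqrt (by linarith)⟩

theorem al_gt {s : ℝ} (h : s ∈ Ioo (157 / 100 : ℝ) (159 / 100)) : 1 < al s := by
  obtain ⟨a, b, c⟩ := sg_bd h
  obtain ⟨d, e⟩ := s2_bd h
  unfold al; nlinarith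

theorem al_contDiffOn : ContDiffOn ℝ 1 al (Ioo (157 / 100 : ℝ) (159 / 100)) := by
  intro s h
  have h1 : ContDiffAt ℝ 1 sg s := by
    unfold sg
    exact (contDiffAt_const.add (ContDiffAt.sqrt (by fun_prop) (by linarith [h.1]))).div_const 2
  have h2 : ContDiffAt ℝ 1 s2 s := by
    unfold s2
    refine ContDiffAt.sqrt ((h1.pow 2).sub contDiffAt_id) ?_
    obtain ⟨d, e⟩ := s2_bd h
    nlinarith
  exact ((contDiffAt_const.mul h1).mul h2).contDiffWithinAt

theorem al_deriv {s : ℝ} (h : s ∈ Ioo (157 / 100 : ℝ) (159 / 100)) : HasDerivAt al (deriv al s) s :=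
  ((al_contDiffOn.contDiffAt (isOpen_Ioo.mem_nhds h)).differentiableAt (by norm_num)).hasDerivAt

theorem sq_diff {w : ℂ} (h : w ∈ U) : ∃ c, 0 < c ∧ w.re ^ 2 - al w.im ^ 2 = c * ((rt w).re - sg w.im) := by
  obtain ⟨a, b, c⟩ := sg_bd h
  obtain ⟨d, e⟩ := s2_bd h
  have e1 := rt_eq1 w
  have e2 := rt_eq2 w
  have p := rt_re h
  refine ⟨4 * ((rt w).re + sg w.im) * ((rt w).im ^ 2 + sg w.im ^ 2), by positivity, ?_⟩
  have : w.re = -(2 * (rt w).re * (rt w).im) := by linarith
  rw [al, mul_pow, e, this, ← e1]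
  ring

theorem lt_al_iff {w : ℂ} (h : w ∈ U) : |w.re| < al w.im ↔ (rt w).re < sg w.im := by
  obtain ⟨c, hc, e⟩ := sq_diff h
  have := al_gt h
  rw [← sq_lt_sq₀ (abs_nonneg _) (by linarith), sq_abs, ← sub_neg, e, mul_neg_iff]
  constructor
  · rintro (a | a) <;> linarith [a.1, a.2]
  · intro a; left; exact ⟨hc, by linarith⟩

theorem le_al_iff {w : ℂ} (h : w ∈ U) : |w.re| ≤ al w.im ↔ (rt w).re ≤ sg w.im := by
  obtain ⟨c, hc, e⟩ := sq_diff h
  have := al_gt h
  rw [← sq_le_sq₀ (abs_nonneg _) (by linarith), sq_abs, ← sub_nonpos, e]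
  constructor
  · intro a; by_contra b; push Not at b; nlinarith
  · intro a; nlinarith

theorem NN_fac {w : ℂ} (h : w ∈ U) :
    NN w = -2 * ((rt w).re - sg w.im) * ((rt w).re - (3 - sg w.im)) := by
  obtain ⟨a, b, c⟩ := sg_bd h
  rw [NN_eq]; linarith

noncomputable def cv (e s : ℝ) : ℂ := ((e * al s : ℝ) : ℂ) + s * I

theorem cv_re (e s : ℝ) : (cv e s).re = e * al s := by simp [cv]
theorem cv_im (e s : ℝ) : (cv e s).im = s := by simp [cv]
theorem cv_mem (e : ℝ) {s : ℝ} (h : s ∈ Ioo (157 / 100 : ℝ) (159 / 100)) : cv e s ∈ U := by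
  rw [U, mem_ofPred_eq, cv_im]; exact h

theorem rt_cv {e : ℝ} (he : e ^ 2 = 1) {s : ℝ} (h : s ∈ Ioo (157 / 100 : ℝ) (159 / 100)) :
    rt (cv e s) = ⟨sg s, -(e * s2 s)⟩ := by
  obtain ⟨a, b, c⟩ := sg_bd h
  obtain ⟨d, f⟩ := s2_bd h
  rw [rt, ← sq2_of_sq (t := ⟨sg s, -(e * s2 s)⟩) (by simp only; linarith)]
  congr 1
  apply Complex.ext
  · simp [cv, sq]; nlinarith
  · simp [cv, sq, al]; ring

theorem kin_cv {e : ℝ} (he : e ^ 2 = 1) {s : ℝ} (h : s ∈ Ioo (157 / 100 : ℝ) (159 / 100)) :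
    ‖kin (cv e s)‖ ^ 2 = 1 / 3 := by
  have h1 := kin_norm (cv_mem e h)
  rw [NN_fac (cv_mem e h), rt_cv he h, cv_im] at h1
  simp only [sub_self, mul_zero, zero_mul, zero_div] at h1
  have := norm_ne_zero_iff.2 (kin_ne (cv_mem e h))
  field_simp at h1 ⊢
  linarith

theorem cv_deriv (e : ℝ) {s : ℝ} (h : s ∈ Ioo (157 / 100 : ℝ) (159 / 100)) :
    HasDerivAt (cv e) (((e * deriv al s : ℝ) : ℂ) + I) s := by
  have h1 := ((al_deriv h).const_mul e).ofReal_comp
  have h2 := (hasDerivAt_id s).ofReal_comp.mul_const I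
  refine (h1.add h2).congr_deriv ?_
  simp

noncomputable def tht (e s : ℝ) : ℝ :=
  (k2 (cv e s) * (((e * deriv al s : ℝ) : ℂ) + I) / kin (cv e s)).im

theorem tht_eq {e : ℝ} (he : e ^ 2 = 1) {s : ℝ} (h : s ∈ Ioo (157 / 100 : ℝ) (159 / 100)) :
    k2 (cv e s) * (((e * deriv al s : ℝ) : ℂ) + I) / kin (cv e s) = tht e s * I := by
  have h1 := ((kin_deriv (cv_mem e h)).comp s (cv_deriv e h)).norm_sq
  have h2 : HasDerivAt (fun s => ‖(kin ∘ cv e) s‖ ^ 2) 0 s := by
    refine (hasDerivAt_const s (1 / 3 : ℝ)).congr_of_eventuallyEq ?_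
    filter_upwards [isOpen_Ioo.mem_nhds h] with t ht using kin_cv he ht
  have h3 := h1.unique h2
  apply Complex.ext
  · simp only [Function.comp, Complex.inner, mul_eq_zero, OfNat.ofNat_ne_zero, false_or] at h3
    rw [div_re, ← add_div]
    simp only [mul_re, conj_re, conj_im] at h3
    simp only [mul_re, ofReal_re, I_re, mul_zero, ofReal_im, I_im, zero_mul, sub_self]
    rw [div_eq_zero_iff]; left
    linarith
  · simp [tht]

theorem tht_pos {e : ℝ} (he : e ^ 2 = 1) {s : ℝ} (h : s ∈ Ioo (157 / 100 : ℝ) (159 / 100)) :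
    0 < e * tht e s := by
  obtain ⟨a, b, c⟩ := sg_bd h
  obtain ⟨d, f⟩ := s2_bd h
  have h1 := tht_eq he h
  have n1 := rt_ne (cv_mem e h)
  have n2 := two_sub_ne (cv_mem e h)
  rw [k2, kin] at h1
  set r := rt (cv e s) with hr
  set A := e * deriv al s
  have h2 : (A : ℂ) + I = tht e s * (r ^ 2 * (2 - r)) := by
    field_simp at h1
    linear_combination -h1 - (r ^ 2 * (2 - r) * tht e s) * I_sq
  have h3 := congrArg im h2
  rw [hr, rt_cv he h] at h3
  simp [sq] at h3
  have h4 : 1 = (e * tht e s) * (s2 s * (2 * (2 * sg s - 3) * (sg s - 1))) := by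
    have : s2 s ^ 2 = -sg s ^ 2 + 6 * sg s - 6 := by linarith
    linear_combination h3 - (tht e s * e * s2 s) * this - (tht e s * e * s2 s ^ 3) * he
  have h5 : 0 < s2 s * (2 * (2 * sg s - 3) * (sg s - 1)) :=
    mul_pos (by linarith) (mul_pos (by linarith) (by linarith))
  by_contra hn
  push Not at hn
  nlinarith

noncomputable def Kout (e : ℝ) (w : ℂ) : ℂ :=
  Kin (cv e w.im) + ((w.re - e * al w.im : ℝ) : ℂ) * kin (cv e w.im)
noncomputable def kout (e : ℝ) (w : ℂ) : ℂ := kin (cv e w.im)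
noncomputable def mout (e : ℝ) (w : ℂ) : ℝ := 1 + (w.re - e * al w.im) * tht e w.im

theorem orth_in : Orth U Kin kin fun _ => 1 := by
  refine ⟨fun w h => (Kin_deriv h).complexToReal_fderiv.congr_fderiv ?_, kin_cont, continuousOn_const⟩
  ext1 v
  rw [DD_apply]
  simp only [smul_apply, one_apply_eq_self, smul_eq_mul]
  conv_lhs => rw [← re_add_im v]
  push_cast; ring

theorem al_im_cont : ContinuousOn (fun w : ℂ => al w.im) U :=
  al_contDiffOn.continuousOn.comp continuous_im.continuousOn fun _ h => h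

theorem orth_out {e : ℝ} (he : e ^ 2 = 1) : Orth U (Kout e) (kout e) (mout e) := by
  have cc : ContinuousOn (cv e) (Ioo (157 / 100 : ℝ) (159 / 100)) := fun s h =>
    (cv_deriv e h).continuousAt.continuousWithinAt
  have c1 : ContinuousOn (fun s => kin (cv e s)) (Ioo (157 / 100 : ℝ) (159 / 100)) :=
    kin_cont.comp cc fun s h => cv_mem e h
  have c2 : ContinuousOn (fun s => k2 (cv e s)) (Ioo (157 / 100 : ℝ) (159 / 100)) :=
    k2_cont.comp cc fun s h => cv_mem e h
  have c3 := al_contDiffOn.continuousOn_deriv_of_isOpen isOpen_Ioo le_rfl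
  have c4 : ContinuousOn (tht e) (Ioo (157 / 100 : ℝ) (159 / 100)) :=
    continuous_im.comp_continuousOn ((c2.mul ((continuous_ofReal.comp_continuousOn
      (continuousOn_const.mul c3)).add continuousOn_const)).div c1 fun s h => kin_ne (cv_mem e h))
  refine ⟨fun w h => ?_, c1.comp continuous_im.continuousOn fun _ h => h,
    continuousOn_const.add ((continuous_re.continuousOn.sub (continuousOn_const.mul al_im_cont)).mul
      (c4.comp continuous_im.continuousOn fun _ h => h))⟩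
  have hi : HasFDerivAt (fun w : ℂ => w.im) imCLM w := imCLM.hasFDerivAt
  have hr : HasFDerivAt (fun w : ℂ => w.re) reCLM w := reCLM.hasFDerivAt
  have d1 := ((Kin_deriv (cv_mem e h)).comp w.im (cv_deriv e h)).hasFDerivAt.comp w hi
  have d2 := ((kin_deriv (cv_mem e h)).comp w.im (cv_deriv e h)).hasFDerivAt.comp w hi
  have d3 := ofRealCLM.hasFDerivAt.comp w
    (hr.sub (((al_deriv h).const_mul e).hasFDerivAt.comp w hi))
  refine (d1.add (d3.mul d2)).congr_fderiv ?_
  ext1 v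
  have h1 := tht_eq he h
  have h2 := kin_ne (cv_mem e h)
  rw [div_eq_iff h2] at h1
  rw [DD_apply]
  simp [kout, mout]
  simp only [ofReal_mul] at h1
  linear_combination ((w.re : ℂ) - e * al w.im) * v.im * h1

noncomputable def KK (w : ℂ) : ℂ := if w.re - al w.im ≤ 0 then
  (if -al w.im - w.re ≤ 0 then Kin w else Kout (-1) w) else Kout 1 w
noncomputable def kk (w : ℂ) : ℂ := if w.re - al w.im ≤ 0 then
  (if -al w.im - w.re ≤ 0 then kin w else kout (-1) w) else kout 1 w
noncomputable def mm (w : ℂ) : ℝ := if w.re - al w.im ≤ 0 then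
  (if -al w.im - w.re ≤ 0 then 1 else mout (-1) w) else mout 1 w

theorem cv_eq {e : ℝ} {w : ℂ} (h : w.re = e * al w.im) : cv e w.im = w :=
  Complex.ext (by rw [cv_re, h]) (cv_im _ _)

theorem orth : Orth U KK kk mm := by
  have h1 := Orth.glue U_open (σ := fun w => -al w.im - w.re)
    (al_im_cont.neg.sub continuous_re.continuousOn) orth_in (orth_out (e := -1) (by norm_num))
    (fun w _ h0 => by
      have e : w.re = -1 * al w.im := by linarith
      simp only [Kout, kout, mout, cv_eq e, ← e]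
      simp)
  refine Orth.glue U_open (σ := fun w => w.re - al w.im)
    (continuous_re.continuousOn.sub al_im_cont) h1 (orth_out (e := 1) (by norm_num))
    (fun w hw h0 => ?_)
  have e : w.re = 1 * al w.im := by linarith
  have := al_gt hw
  simp only [if_pos (show -al w.im - w.re ≤ 0 by linarith), Kout, kout, mout, cv_eq e, ← e]
  simp

theorem inner_eq {w : ℂ} (h : |w.re| ≤ al w.im) : KK w = Kin w ∧ kk w = kin w ∧ mm w = 1 := by
  rw [abs_le] at h
  have a : w.re - al w.im ≤ 0 := by linarith [h.2]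
  have b : -al w.im - w.re ≤ 0 := by linarith [h.1]
  simp only [KK, kk, mm, if_pos a, if_pos b, and_self]

theorem kk_ne {w : ℂ} (h : w ∈ U) : kk w ≠ 0 := by
  unfold kk
  split_ifs
  exacts [kin_ne h, kin_ne (cv_mem _ h), kin_ne (cv_mem _ h)]

theorem mm_gt {w : ℂ} (h : w ∈ U) (h' : al w.im < w.re) : 1 < mm w := by
  have := tht_pos (e := 1) (by norm_num) h
  rw [mm, if_neg (by linarith), mout]
  nlinarith

theorem mm_ge {w : ℂ} (h : w ∈ U) : 1 ≤ mm w := by
  by_cases a : w.re - al w.im ≤ 0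
  · rw [mm, if_pos a]
    split_ifs with b
    · exact le_rfl
    · have := tht_pos (e := -1) (by norm_num) h
      rw [mout]
      nlinarith
  · exact (mm_gt h (by linarith)).le

theorem kk_out {w : ℂ} (h : w ∈ U) (h' : al w.im ≤ |w.re|) : ‖kk w‖ ^ 2 = 1 / 3 := by
  unfold kk
  split_ifs with a b
  · rcases le_abs.1 h' with c | c
    · rw [← cv_eq (e := 1) (w := w) (by linarith)]; exact kin_cv (by norm_num) h
    · rw [← cv_eq (e := -1) (w := w) (by linarith)]; exact kin_cv (by norm_num) h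
  · exact kin_cv (by norm_num) h
  · exact kin_cv (by norm_num) h

theorem t_re_pos {w : ℂ} (h : w ∈ U) (h' : (rt w).re ≤ sg w.im) : 0 < (2 - rt w).re := by
  have := (sg_bd h).2.1
  simp; linarith

theorem exists_O : ∃ O : Set ℂ, IsOpen O ∧ O ⊆ U ∧ InjOn KK O ∧
    Icc (-al (158 / 100)) (al (158 / 100)) ×ℂ {(158 / 100 : ℝ)} ⊆ O := by
  have hsub : Icc (-al (158 / 100)) (al (158 / 100)) ×ℂ {(158 / 100 : ℝ)} ⊆ U := fun w hw => by
    have : w.im = 158 / 100 := hw.2
    rw [U, mem_ofPred_eq, this]; norm_num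
  have hin : ∀ w ∈ Icc (-al (158 / 100)) (al (158 / 100)) ×ℂ {(158 / 100 : ℝ)}, |w.re| ≤ al w.im :=
    fun w hw => by
      have : w.im = 158 / 100 := hw.2
      rw [this]; exact abs_le.2 hw.1
  obtain ⟨O, h1, h2, h3⟩ := InjOn.exists_isOpen_superset (f := KK)
    (s := Icc (-al (158 / 100)) (al (158 / 100)) ×ℂ {(158 / 100 : ℝ)})
    (fun a ha b hb e => by
      rw [(inner_eq (hin a ha)).1, (inner_eq (hin b hb)).1] at e
      have e1 := congrArg sq2 e
      rw [Kin, Kin, sq2_of_sq (t_re_pos (hsub ha) ((le_al_iff (hsub ha)).1 (hin a ha))),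
        sq2_of_sq (t_re_pos (hsub hb) ((le_al_iff (hsub hb)).1 (hin b hb)))] at e1
      have e2 : rt a = rt b := by linear_combination -e1
      have e3 := rt_sq a
      rw [e2, rt_sq b] at e3
      exact (mul_left_cancel₀ (neg_ne_zero.2 I_ne_zero) e3).symm)
    (isCompact_Icc.reProdIm isCompact_singleton)
    (fun w hw => (orth.1 w (hsub hw)).continuousAt)
    (fun w hw => by
      obtain ⟨e, he⟩ := DD_equiv (kk_ne (hsub hw)) (m := mm w) (by linarith [mm_ge (hsub hw)])
      have hs : HasStrictFDerivAt KK (e : ℂ →L[ℝ] ℂ) w := by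
        rw [he]
        exact ((orth.contDiffOn U_open).contDiffAt (U_open.mem_nhds (hsub hw))).hasStrictFDerivAt'
          (orth.1 w (hsub hw)) (by norm_num)
      exact ⟨_, (hs.toOpenPartialHomeomorph KK).open_source.mem_nhds
        hs.mem_toOpenPartialHomeomorph_source, (hs.toOpenPartialHomeomorph KK).injOn⟩)
  exact ⟨O ∩ U, h1.inter U_open, inter_subset_right, h3.mono inter_subset_left, subset_inter h2 hsub⟩

end Pool.Agent.H308Z.MFG
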