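import Mathlib

set_option autoImplicit false
open MeasureTheory Set Filter Topology BoundedContinuousFunction

namespace Pool.Agent.H308Z.MFG

variable {E : Type*} [NormedAddCommGroup E] [InnerProductSpace ℝ E] [CompleteSpace E]

theorem ftc {X : Type*} [NormedAddCommGroup X] [NormedSpace ℝ X] [CompleteSpace X] {f : ℝ → X}
    (hf : Continuous f) (a b : ℝ) : HasDerivAt (fun u => ∫ x in a..u, f x) (f b) b :=
  (hf.integral_hasStrictDerivAt a b).hasDerivAt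

theorem taylor1 {g : E → ℝ} {G : E → E} {L : NNReal} (hg : ∀ x, HasGradientAt g (G x) x)
    (hL : LipschitzWith L G) (x y : E) :
    |g y - g x - inner ℝ (G x) (y - x)| ≤ L * ‖y - x‖ ^ 2 := by
  have h := (convex_closedBall x ‖y - x‖).norm_image_sub_le_of_norm_hasFDerivWithin_le'
    (f := g) (f' := fun z => InnerProductSpace.toDual ℝ E (G z))
    (φ := InnerProductSpace.toDual ℝ E (G x)) (C := L * ‖y - x‖) (x := x) (y := y)
    (fun z _ => (hg z).hasFDerivAt.hasFDerivWithinAt)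
    (fun z hz => by
      rw [← map_sub, LinearIsometryEquiv.norm_map]
      have h1 := hL.dist_le_mul z x
      rw [dist_eq_norm] at h1
      have h2 : dist z x ≤ ‖y - x‖ := hz
      exact h1.trans (mul_le_mul_of_nonneg_left h2 L.2))
    (Metric.mem_closedBall_self (norm_nonneg _)) (by simp [dist_eq_norm])
  rw [Real.norm_eq_abs] at h
  simp only [InnerProductSpace.toDual_apply_apply] at h
  calc _ ≤ _ := h
    _ = _ := by ring

/-- data of the short-time Hamilton-Jacobi problem -/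
structure HJData (E : Type*) [NormedAddCommGroup E] [InnerProductSpace ℝ E] [CompleteSpace E] where
  g : E → ℝ
  q : E → ℝ
  G : E → E
  F : E → E
  L : NNReal
  M : ℝ
  T : ℝ
  hg : ∀ x, HasGradientAt g (G x) x
  hq : ∀ x, HasGradientAt q (F x) x
  lG : LipschitzWith L G
  lF : LipschitzWith L F
  bG : ∀ x, ‖G x‖ ≤ M
  bF : ∀ x, ‖F x‖ ≤ M
  bq : ∀ x, |q x| ≤ M
  T0 : 0 < T
  T1 : T ≤ 1
  TL : T * (2 * L) ≤ 1 / 2

namespace HJData

variable (D : HJData E)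

noncomputable def cl (s : ℝ) : ℝ := max 0 (min s D.T)

theorem cl_mem (s : ℝ) : D.cl s ∈ Icc 0 D.T :=
  ⟨le_max_left _ _, max_le D.T0.le (min_le_right _ _)⟩

theorem cl_eq {s : ℝ} (hs : s ∈ Icc 0 D.T) : D.cl s = s := by
  unfold cl; rw [min_eq_left hs.2, max_eq_right hs.1]

theorem cl_cont : Continuous D.cl := by unfold cl; fun_prop

theorem M0 : 0 ≤ D.M := (norm_nonneg _).trans (D.bG 0)

theorem q_cont : Continuous D.q :=
  continuous_iff_continuousAt.2 fun x => (D.hq x).continuousAt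

theorem g_cont : Continuous D.g :=
  continuous_iff_continuousAt.2 fun x => (D.hg x).continuousAt

noncomputable def V (γ : ℝ →ᵇ E) (r : ℝ) : E := D.G (γ 0) + ∫ s in (0:ℝ)..r, D.F (γ s)

theorem V_deriv (γ : ℝ →ᵇ E) (r : ℝ) : HasDerivAt (D.V γ) (D.F (γ r)) r := by
  have hc : Continuous fun s => D.F (γ s) := D.lF.continuous.comp γ.continuous
  exact (ftc hc 0 r).const_add _

theorem V_cont (γ : ℝ →ᵇ E) : Continuous (D.V γ) :=
  continuous_iff_continuousAt.2 fun r => (D.V_deriv γ r).continuousAt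

theorem V_zero (γ : ℝ →ᵇ E) : D.V γ 0 = D.G (γ 0) := by simp [V]

theorem V_bound (γ : ℝ →ᵇ E) {r : ℝ} (hr : r ∈ Icc 0 D.T) : ‖D.V γ r‖ ≤ 2 * D.M := by
  have h1 : ‖∫ s in (0:ℝ)..r, D.F (γ s)‖ ≤ D.M * |r - 0| :=
    intervalIntegral.norm_integral_le_of_norm_le_const fun s _ => D.bF _
  have h2 : |r - 0| ≤ 1 := by rw [sub_zero, abs_of_nonneg hr.1]; exact hr.2.trans D.T1
  have h3 := norm_add_le (D.G (γ 0)) (∫ s in (0:ℝ)..r, D.F (γ s))
  have h4 := D.bG (γ 0)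
  have h5 := mul_le_mul_of_nonneg_left h2 D.M0
  unfold V; linarith

theorem V_lip (γ γ' : ℝ →ᵇ E) {r : ℝ} (hr : r ∈ Icc 0 D.T) :
    ‖D.V γ r - D.V γ' r‖ ≤ 2 * D.L * dist γ γ' := by
  have hc : Continuous fun s => D.F (γ s) := D.lF.continuous.comp γ.continuous
  have hc' : Continuous fun s => D.F (γ' s) := D.lF.continuous.comp γ'.continuous
  have key : ∀ (H : E → E), LipschitzWith D.L H → ∀ s, ‖H (γ s) - H (γ' s)‖ ≤ D.L * dist γ γ' := by
    intro H hH s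
    rw [← dist_eq_norm]
    exact (hH.dist_le_mul _ _).trans (mul_le_mul_of_nonneg_left (dist_coe_le_dist s) D.L.2)
  have e : D.V γ r - D.V γ' r = (D.G (γ 0) - D.G (γ' 0)) + ∫ s in (0:ℝ)..r, (D.F (γ s) - D.F (γ' s)) := by
    rw [intervalIntegral.integral_sub (hc.intervalIntegrable _ _) (hc'.intervalIntegrable _ _)]
    unfold V; abel
  have h1 : ‖∫ s in (0:ℝ)..r, (D.F (γ s) - D.F (γ' s))‖ ≤ (D.L * dist γ γ') * |r - 0| :=
    intervalIntegral.norm_integral_le_of_norm_le_const fun s _ => key _ D.lF s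
  have h2 : |r - 0| ≤ 1 := by rw [sub_zero, abs_of_nonneg hr.1]; exact hr.2.trans D.T1
  have h5 := mul_le_mul_of_nonneg_left h2 (mul_nonneg D.L.2 (dist_nonneg (x := γ) (y := γ')))
  have h4 := key _ D.lG 0
  rw [e]
  refine (norm_add_le _ _).trans ?_
  have : (D.L.1 : ℝ) = (D.L : ℝ) := rfl
  rw [this] at h5
  linarith

theorem int_bound {H : ℝ → E} {C a b : ℝ} (ha : a ∈ Icc 0 D.T) (hb : b ∈ Icc 0 D.T)
    (hH : ∀ r ∈ Icc 0 D.T, ‖H r‖ ≤ C) : ‖∫ r in a..b, H r‖ ≤ C * |b - a| :=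
  intervalIntegral.norm_integral_le_of_norm_le_const fun r hr =>
    hH r (uIcc_subset_Icc ha hb (uIoc_subset_uIcc hr))

theorem abs_le_T {a b : ℝ} (ha : a ∈ Icc 0 D.T) (hb : b ∈ Icc 0 D.T) : |b - a| ≤ D.T := by
  rw [abs_le]; constructor <;> linarith [ha.1, ha.2, hb.1, hb.2]

noncomputable def Gam (γ : ℝ →ᵇ E) (τ : ℝ) (x : E) (s : ℝ) : E := x + ∫ r in τ..s, D.V γ r

theorem Gam_deriv (γ : ℝ →ᵇ E) (τ : ℝ) (x : E) (s : ℝ) :
    HasDerivAt (D.Gam γ τ x) (D.V γ s) s :=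
  (ftc (D.V_cont γ) τ s).const_add _

theorem Gam_cont (γ : ℝ →ᵇ E) (τ : ℝ) (x : E) : Continuous (D.Gam γ τ x) :=
  continuous_iff_continuousAt.2 fun r => (D.Gam_deriv γ τ x r).continuousAt

def Sol (τ : ℝ) (x : E) (γ : ℝ →ᵇ E) : Prop := ∀ s, γ s = D.Gam γ τ x (D.cl s)

theorem Sol.eq {D : HJData E} {τ : ℝ} {x : E} {γ : ℝ →ᵇ E} (h : D.Sol τ x γ) {s : ℝ}
    (hs : s ∈ Icc 0 D.T) : γ s = D.Gam γ τ x s := by rw [h s, D.cl_eq hs]

theorem Sol.self {D : HJData E} {τ : ℝ} {x : E} {γ : ℝ →ᵇ E} (h : D.Sol τ x γ)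
    (hs : τ ∈ Icc 0 D.T) : γ τ = x := by rw [h.eq hs]; simp [Gam]

theorem Gam_sub (γ γ' : ℝ →ᵇ E) {τ τ' s : ℝ} (hτ : τ ∈ Icc 0 D.T) (hτ' : τ' ∈ Icc 0 D.T)
    (hs : s ∈ Icc 0 D.T) (x x' : E) :
    ‖D.Gam γ τ x s - D.Gam γ' τ' x' s‖ ≤ ‖x - x'‖ + 2 * D.M * |τ' - τ| + dist γ γ' / 2 := by
  have c1 := D.V_cont γ
  have c2 := D.V_cont γ'
  have e : D.Gam γ τ x s - D.Gam γ' τ' x' s
      = (x - x') + (∫ r in τ..τ', D.V γ r) + ∫ r in τ'..s, (D.V γ r - D.V γ' r) := by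
    rw [intervalIntegral.integral_sub (c1.intervalIntegrable _ _) (c2.intervalIntegrable _ _)]
    unfold Gam
    rw [← intervalIntegral.integral_add_adjacent_intervals (c1.intervalIntegrable τ τ')
      (c1.intervalIntegrable τ' s)]
    abel
  have h1 := D.int_bound hτ hτ' (fun r hr => D.V_bound γ hr)
  have h2 := D.int_bound hτ' hs (fun r hr => D.V_lip γ γ' hr)
  have h3 := D.abs_le_T hτ' hs
  have h4 : 2 * D.L * dist γ γ' * |s - τ'| ≤ dist γ γ' / 2 := by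
    have a1 : 0 ≤ 2 * (D.L : ℝ) * dist γ γ' := by positivity
    have a2 := mul_le_mul_of_nonneg_left h3 a1
    have a3 := mul_le_mul_of_nonneg_right D.TL (dist_nonneg (x := γ) (y := γ'))
    nlinarith
  rw [e]
  refine (norm_add₃_le).trans ?_
  linarith

noncomputable def Phi (τ : ℝ) (x : E) (γ : ℝ →ᵇ E) : ℝ →ᵇ E :=
  BoundedContinuousFunction.ofNormedAddCommGroup (fun s => D.Gam γ (D.cl τ) x (D.cl s))
    ((D.Gam_cont γ _ x).comp D.cl_cont) (‖x‖ + 2 * D.M * D.T) (fun s => by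
      have h1 := D.int_bound (D.cl_mem τ) (D.cl_mem s) (fun r hr => D.V_bound γ hr)
      have h2 := D.abs_le_T (D.cl_mem τ) (D.cl_mem s)
      have h3 := mul_le_mul_of_nonneg_left h2 (mul_nonneg (by norm_num : (0:ℝ) ≤ 2) D.M0)
      unfold Gam
      refine (norm_add_le _ _).trans ?_
      linarith)

theorem exists_sol (τ : ℝ) (x : E) : ∃ γ, D.Sol (D.cl τ) x γ := by
  have hc : ContractingWith (1 / 2) (D.Phi τ x) := by
    refine ⟨by norm_num, LipschitzWith.of_dist_le_mul fun γ γ' => ?_⟩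
    refine (dist_le (by positivity)).2 fun s => ?_
    have := D.Gam_sub γ γ' (D.cl_mem τ) (D.cl_mem τ) (D.cl_mem s) x x
    rw [dist_eq_norm]
    simp only [sub_self, norm_zero, abs_zero, mul_zero, add_zero, zero_add] at this
    refine le_trans this (le_of_eq ?_)
    push_cast; ring
  refine ⟨hc.fixedPoint _, fun s => ?_⟩
  have := hc.fixedPoint_isFixedPt
  exact (congrArg (fun f : ℝ →ᵇ E => f s) this.eq).symm

noncomputable def sol (τ : ℝ) (x : E) : ℝ →ᵇ E := (D.exists_sol τ x).choose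

theorem sol_spec {τ : ℝ} (hτ : τ ∈ Icc 0 D.T) (x : E) : D.Sol τ x (D.sol τ x) := by
  have : D.Sol (D.cl τ) x (D.sol τ x) := (D.exists_sol τ x).choose_spec
  rwa [D.cl_eq hτ] at this

theorem sol_dist {τ τ' : ℝ} {x x' : E} {γ γ' : ℝ →ᵇ E} (hτ : τ ∈ Icc 0 D.T) (hτ' : τ' ∈ Icc 0 D.T)
    (h : D.Sol τ x γ) (h' : D.Sol τ' x' γ') :
    dist γ γ' ≤ 2 * (‖x - x'‖ + 2 * D.M * |τ' - τ|) := by
  have : dist γ γ' ≤ ‖x - x'‖ + 2 * D.M * |τ' - τ| + dist γ γ' / 2 := by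
    refine (dist_le (by have := D.M0; positivity)).2 fun s => ?_
    rw [dist_eq_norm, h s, h' s]
    exact D.Gam_sub γ γ' hτ hτ' (D.cl_mem s) x x'
  linarith

theorem Sol.shift {D : HJData E} {τ τ' : ℝ} {x : E} {γ : ℝ →ᵇ E} (h : D.Sol τ x γ) :
    D.Sol τ' (D.Gam γ τ x τ') γ := by
  intro s
  rw [h s]
  have c1 := D.V_cont γ
  unfold Gam
  rw [← intervalIntegral.integral_add_adjacent_intervals (c1.intervalIntegrable τ τ')
      (c1.intervalIntegrable τ' _), add_assoc]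

noncomputable def A (γ : ℝ →ᵇ E) (s : ℝ) : ℝ :=
  D.g (γ 0) + ∫ r in (0:ℝ)..s, (‖D.V γ r‖ ^ 2 / 2 + D.q (γ r))

theorem A_deriv (γ : ℝ →ᵇ E) (s : ℝ) :
    HasDerivAt (D.A γ) (‖D.V γ s‖ ^ 2 / 2 + D.q (γ s)) s := by
  have c1 := D.V_cont γ
  have c2 := D.q_cont.comp γ.continuous
  have hc : Continuous fun r => ‖D.V γ r‖ ^ 2 / 2 + D.q (γ r) :=
    ((c1.norm.pow 2).div_const 2).add c2
  exact (ftc hc 0 s).const_add _

theorem spatial {τ : ℝ} {x x' : E} {γ γ' : ℝ →ᵇ E} (hτ : τ ∈ Icc 0 D.T)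
    (h : D.Sol τ x γ) (h' : D.Sol τ x' γ') :
    |D.A γ' τ - D.A γ τ - inner ℝ (D.V γ τ) (x' - x)|
      ≤ (8 * D.L + 8 * D.L ^ 2) * ‖x' - x‖ ^ 2 := by
  set d := dist γ' γ with hd
  have hd0 : 0 ≤ d := dist_nonneg
  have hd1 : d ≤ 2 * ‖x' - x‖ := by
    have := D.sol_dist hτ hτ h' h
    simpa using this
  have hds : ∀ s, ‖γ' s - γ s‖ ≤ d := fun s => by
    rw [← dist_eq_norm]; exact dist_coe_le_dist s
  have hL : (0:ℝ) ≤ D.L := D.L.2
  have hd2 : d ^ 2 ≤ 4 * ‖x' - x‖ ^ 2 := by nlinarith [norm_nonneg (x' - x)]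
  let ψ : ℝ → ℝ := fun s => D.A γ' s - D.A γ s - inner ℝ (D.V γ s) (D.Gam γ' τ x' s - D.Gam γ τ x s)
  have hψ : ∀ s, HasDerivAt ψ ((‖D.V γ' s‖ ^ 2 / 2 + D.q (γ' s)) - (‖D.V γ s‖ ^ 2 / 2 + D.q (γ s))
      - (inner ℝ (D.V γ s) (D.V γ' s - D.V γ s)
        + inner ℝ (D.F (γ s)) (D.Gam γ' τ x' s - D.Gam γ τ x s))) s := fun s =>
    ((D.A_deriv γ' s).sub (D.A_deriv γ s)).sub
      ((D.V_deriv γ s).inner ℝ ((D.Gam_deriv γ' τ x' s).sub (D.Gam_deriv γ τ x s)))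
  have h0 : |ψ 0| ≤ D.L * d ^ 2 := by
    have z : (0:ℝ) ∈ Icc 0 D.T := ⟨le_rfl, D.T0.le⟩
    have e : ψ 0 = D.g (γ' 0) - D.g (γ 0) - inner ℝ (D.G (γ 0)) (γ' 0 - γ 0) := by
      simp only [ψ, A, intervalIntegral.integral_same, add_zero, V_zero, ← h.eq z, ← h'.eq z]
    rw [e]
    refine (taylor1 D.hg D.lG _ _).trans (mul_le_mul_of_nonneg_left ?_ hL)
    exact pow_le_pow_left₀ (norm_nonneg _) (hds 0) 2
  have hb := norm_image_sub_le_of_norm_deriv_le_segment' (f := ψ) (a := 0) (b := D.T)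
    (C := D.L * d ^ 2 + 2 * D.L ^ 2 * d ^ 2) (fun s _ => (hψ s).hasDerivWithinAt)
    (fun s hs => by
      have hs' : s ∈ Icc 0 D.T := Ico_subset_Icc_self hs
      rw [← h.eq hs', ← h'.eq hs', Real.norm_eq_abs]
      have t1 := taylor1 D.hq D.lF (γ s) (γ' s)
      have t2 : D.L * ‖γ' s - γ s‖ ^ 2 ≤ D.L * d ^ 2 :=
        mul_le_mul_of_nonneg_left (pow_le_pow_left₀ (norm_nonneg _) (hds s) 2) hL
      have t3 := D.V_lip γ' γ hs'
      have t4 : ‖D.V γ' s - D.V γ s‖ ^ 2 ≤ (2 * D.L * d) ^ 2 :=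
        pow_le_pow_left₀ (norm_nonneg _) t3 2
      have t5 : ‖D.V γ' s - D.V γ s‖ ^ 2 = ‖D.V γ' s‖ ^ 2 - ‖D.V γ s‖ ^ 2
          - 2 * inner ℝ (D.V γ s) (D.V γ' s - D.V γ s) := by
        rw [norm_sub_sq_real, inner_sub_right, real_inner_self_eq_norm_sq, real_inner_comm]; ring
      have t6 := sq_nonneg ‖D.V γ' s - D.V γ s‖
      rw [abs_le] at t1 ⊢
      constructor <;> nlinarith [t1.1, t1.2]) τ hτ
  have e : ψ τ = D.A γ' τ - D.A γ τ - inner ℝ (D.V γ τ) (x' - x) := by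
    simp [ψ, Gam]
  rw [← e]
  rw [Real.norm_eq_abs, sub_zero] at hb
  have hτ1 : τ ≤ 1 := hτ.2.trans D.T1
  have c0 : 0 ≤ D.L * d ^ 2 + 2 * (D.L : ℝ) ^ 2 * d ^ 2 := by positivity
  have c1 := mul_le_mul_of_nonneg_left hτ1 c0
  have c2 := abs_sub_abs_le_abs_sub (ψ τ) (ψ 0)
  have c3 := mul_le_mul_of_nonneg_left hd2 hL
  have c4 := mul_le_mul_of_nonneg_left hd2 (sq_nonneg (D.L : ℝ))
  nlinarith

noncomputable def u (z : ℝ × E) : ℝ := D.A (D.sol z.1 z.2) z.1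

noncomputable def w (z : ℝ × E) : E := D.V (D.sol z.1 z.2) z.1

noncomputable def Du (z : ℝ × E) : ℝ × E →L[ℝ] ℝ :=
  (D.q z.2 - ‖D.w z‖ ^ 2 / 2) • ContinuousLinearMap.fst ℝ ℝ E
    + (innerSL ℝ (D.w z)).comp (ContinuousLinearMap.snd ℝ ℝ E)

theorem w_cont : ContinuousOn D.w (Icc 0 D.T ×ˢ univ) := by
  have : LipschitzOnWith (Real.toNNReal (4 * D.L * (1 + 2 * D.M) + D.M)) D.w (Icc 0 D.T ×ˢ univ) := by
    refine LipschitzOnWith.of_dist_le_mul fun z hz z' hz' => ?_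
    have hL : (0:ℝ) ≤ D.L := D.L.2
    have hM := D.M0
    rw [Real.coe_toNNReal _ (by positivity)]
    have h1 := D.sol_dist hz.1 hz'.1 (D.sol_spec hz.1 z.2) (D.sol_spec hz'.1 z'.2)
    have h2 := D.V_lip (D.sol z.1 z.2) (D.sol z'.1 z'.2) hz.1
    have h3 : ‖D.V (D.sol z'.1 z'.2) z.1 - D.V (D.sol z'.1 z'.2) z'.1‖ ≤ D.M * ‖z.1 - z'.1‖ :=
      convex_univ.norm_image_sub_le_of_norm_hasDerivWithin_le
        (fun s _ => (D.V_deriv _ s).hasDerivWithinAt) (fun s _ => D.bF _) (mem_univ _) (mem_univ _)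
    have a1 : ‖z.2 - z'.2‖ ≤ dist z z' := by
      rw [← dist_eq_norm, Prod.dist_eq]; exact le_max_right _ _
    have a2 : ‖z.1 - z'.1‖ ≤ dist z z' := by
      rw [← dist_eq_norm, Prod.dist_eq]; exact le_max_left _ _
    have a3 : |z'.1 - z.1| ≤ dist z z' := by rwa [abs_sub_comm]
    have a4 := mul_le_mul_of_nonneg_left a3 hM
    have a5 := mul_le_mul_of_nonneg_left a2 hM
    have a6 : dist (D.sol z.1 z.2) (D.sol z'.1 z'.2) ≤ 2 * (1 + 2 * D.M) * dist z z' := by nlinarith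
    have a7 := mul_le_mul_of_nonneg_left a6 (by positivity : (0:ℝ) ≤ 2 * D.L)
    rw [dist_eq_norm]
    have := norm_sub_le_norm_sub_add_norm_sub (D.w z) (D.V (D.sol z'.1 z'.2) z.1) (D.w z')
    unfold w at this ⊢
    nlinarith
  exact this.continuousOn

theorem u_fderiv {z : ℝ × E} (hz : z.1 ∈ Ioo 0 D.T) : HasFDerivAt D.u (D.Du z) z := by
  obtain ⟨τ, x⟩ := z
  have hτ : τ ∈ Icc 0 D.T := Ioo_subset_Icc_self hz
  set γ := D.sol τ x with hγ
  have hs : D.Sol τ x γ := D.sol_spec hτ x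
  let H : ℝ × E → E := fun y => y.2 - D.Gam γ τ x y.1
  have hH0 : H (τ, x) = 0 := by simp [H, Gam]
  have hH : HasFDerivAt H (ContinuousLinearMap.snd ℝ ℝ E
      - (ContinuousLinearMap.fst ℝ ℝ E).smulRight (D.V γ τ)) (τ, x) := by
    have := (D.Gam_deriv γ τ x τ).hasFDerivAt.comp (τ, x) (hasFDerivAt_fst (𝕜 := ℝ) (p := (τ, x)))
    refine hasFDerivAt_snd.sub (this.congr_fderiv ?_)
    ext <;> simp
  let B : ℝ × E → ℝ := fun y => D.A γ y.1 + inner ℝ (D.V γ y.1) (H y)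
  have hB : HasFDerivAt B (D.Du (τ, x)) (τ, x) := by
    have h1 := (D.A_deriv γ τ).hasFDerivAt.comp (τ, x) (hasFDerivAt_fst (𝕜 := ℝ) (p := (τ, x)))
    have h2 := (D.V_deriv γ τ).hasFDerivAt.comp (τ, x) (hasFDerivAt_fst (𝕜 := ℝ) (p := (τ, x)))
    refine (h1.add (h2.inner ℝ hH)).congr_fderiv ?_
    ext
    · simp [Du, hH0, w, ← hγ, hs.self hτ, inner_neg_right]
      ring
    · simp [Du, hH0, w, ← hγ]
  have hsq : HasFDerivAt (fun y => ‖H y‖ ^ 2) (0 : ℝ × E →L[ℝ] ℝ) (τ, x) := by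
    refine hH.norm_sq.congr_fderiv ?_
    simp [hH0]
  have ho : (fun y => D.u y - B y) =o[𝓝 (τ, x)] fun y => y - (τ, x) := by
    have h1 := hsq.isLittleO
    simp only [hH0, norm_zero, zero_apply, sub_zero, ne_eq, OfNat.ofNat_ne_zero,
      not_false_eq_true, zero_pow] at h1
    refine Asymptotics.IsBigO.trans_isLittleO ?_ h1
    refine Asymptotics.IsBigO.of_bound (8 * D.L + 8 * D.L ^ 2) ?_
    have : ∀ᶠ y : ℝ × E in 𝓝 (τ, x), y.1 ∈ Icc 0 D.T :=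
      continuousAt_fst.eventually (Icc_mem_nhds hz.1 hz.2)
    filter_upwards [this] with y hy
    have := D.spatial hy (hs.shift (τ' := y.1)) (D.sol_spec hy y.2)
    rw [Real.norm_eq_abs, Real.norm_eq_abs, abs_of_nonneg (sq_nonneg ‖H y‖)]
    refine le_trans (le_of_eq ?_) this
    simp only [u, B, H]; congr 1; ring
  have hd : HasFDerivAt (fun y => D.u y - B y) (0 : ℝ × E →L[ℝ] ℝ) (τ, x) := by
    rw [hasFDerivAt_iff_isLittleO]
    have : D.u (τ, x) - B (τ, x) = 0 := by simp [u, B, hH0, ← hγ]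
    simpa [this] using ho
  have h2 := hd.add hB
  have e : ((fun y => D.u y - B y) + B) = D.u := by ext y; simp
  rwa [e, zero_add] at h2

theorem u_contDiffOn : ContDiffOn ℝ 1 D.u (Ioo 0 D.T ×ˢ univ) := by
  have ho : IsOpen (Ioo (0:ℝ) D.T ×ˢ (univ : Set E)) := isOpen_Ioo.prod isOpen_univ
  rw [show (1 : WithTop ℕ∞) = 0 + 1 by simp, contDiffOn_succ_iff_fderiv_of_isOpen ho]
  refine ⟨fun z hz => (D.u_fderiv hz.1).differentiableAt.differentiableWithinAt, by simp, ?_⟩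
  rw [contDiffOn_zero]
  have hw : ContinuousOn D.w (Ioo 0 D.T ×ˢ univ) :=
    D.w_cont.mono (prod_mono Ioo_subset_Icc_self Subset.rfl)
  have : ContinuousOn D.Du (Ioo 0 D.T ×ˢ univ) := by
    unfold Du
    refine (((D.q_cont.comp continuous_snd).continuousOn.sub
      ((hw.norm.pow 2).div_const 2)).smul continuousOn_const).add ?_
    exact ((innerSL ℝ (E := E)).continuous.comp_continuousOn hw).clm_comp continuousOn_const
  exact this.congr fun z hz => (D.u_fderiv hz.1).fderiv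

theorem sol_near {τ : ℝ} (hτ : τ ∈ Icc 0 D.T) (x : E) {s : ℝ} (hs : s ∈ Icc 0 D.T) :
    ‖D.sol τ x s - x‖ ≤ 2 * D.M * D.T := by
  rw [(D.sol_spec hτ x).eq hs]
  have h1 := D.int_bound hτ hs (fun r hr => D.V_bound (D.sol τ x) hr)
  have h2 := mul_le_mul_of_nonneg_left (D.abs_le_T hτ hs) (mul_nonneg (by norm_num : (0:ℝ) ≤ 2) D.M0)
  simp only [Gam, add_sub_cancel_left]
  linarith

theorem u_near {τ : ℝ} (hτ : τ ∈ Icc 0 D.T) (x : E) :
    |D.u (τ, x) - D.g x| ≤ (4 * D.M ^ 2 + D.M) * D.T := by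
  have hM := D.M0
  have z : (0:ℝ) ∈ Icc 0 D.T := ⟨le_rfl, D.T0.le⟩
  have h1 : ‖D.g (D.sol τ x 0) - D.g x‖ ≤ D.M * ‖D.sol τ x 0 - x‖ :=
    convex_univ.norm_image_sub_le_of_norm_hasFDerivWithin_le
      (f' := fun z => InnerProductSpace.toDual ℝ E (D.G z))
      (fun y _ => (D.hg y).hasFDerivAt.hasFDerivWithinAt)
      (fun y _ => by rw [LinearIsometryEquiv.norm_map]; exact D.bG y) (mem_univ _) (mem_univ _)
  have h2 := mul_le_mul_of_nonneg_left (D.sol_near hτ x z) hM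
  have h3 : ‖∫ r in (0:ℝ)..τ, (‖D.V (D.sol τ x) r‖ ^ 2 / 2 + D.q (D.sol τ x r))‖
      ≤ (2 * D.M ^ 2 + D.M) * |τ - 0| :=
    intervalIntegral.norm_integral_le_of_norm_le_const fun r hr => by
      have hr' := uIcc_subset_Icc z hτ (uIoc_subset_uIcc hr)
      have b1 := pow_le_pow_left₀ (norm_nonneg _) (D.V_bound (D.sol τ x) hr') 2
      have b2 := abs_le.1 (D.bq (D.sol τ x r))
      have b3 := sq_nonneg ‖D.V (D.sol τ x) r‖
      rw [Real.norm_eq_abs, abs_le]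
      constructor <;> nlinarith [b2.1, b2.2, sq_nonneg D.M]
  have h4 := mul_le_mul_of_nonneg_left (D.abs_le_T z hτ) (by positivity : 0 ≤ 2 * D.M ^ 2 + D.M)
  rw [Real.norm_eq_abs] at h1 h3
  have e : D.u (τ, x) - D.g x = (D.g (D.sol τ x 0) - D.g x)
      + ∫ r in (0:ℝ)..τ, (‖D.V (D.sol τ x) r‖ ^ 2 / 2 + D.q (D.sol τ x r)) := by
    simp only [u, A]; ring
  rw [e]
  refine (abs_add_le _ _).trans ?_
  nlinarith

theorem u_stat {τ : ℝ} (hτ : τ ∈ Icc 0 D.T) (x : E)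
    (hS : ∀ y ∈ Metric.closedBall x (2 * D.M * D.T), D.q y = ‖D.G y‖ ^ 2 / 2 ∧
      ∃ G' : E →L[ℝ] E, HasFDerivAt D.G G' y ∧ G' (D.G y) = D.F y) :
    D.u (τ, x) = D.g x := by
  set γ := D.sol τ x with hγ
  have hs : D.Sol τ x γ := D.sol_spec hτ x
  have hin : ∀ s ∈ Icc 0 D.T, γ s ∈ Metric.closedBall x (2 * D.M * D.T) := fun s hs' => by
    rw [Metric.mem_closedBall, dist_eq_norm]; exact D.sol_near hτ x hs'
  have z : (0:ℝ) ∈ Icc 0 D.T := ⟨le_rfl, D.T0.le⟩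
  choose! G' hG' hG'' using fun y hy => (hS y hy).2
  let e : ℝ → E := fun s => D.V γ s - D.G (D.Gam γ τ x s)
  have he : ∀ s ∈ Icc 0 D.T, HasDerivAt e (-(G' (γ s) (e s))) s := fun s hs' => by
    have h1 := hG' _ (hin s hs')
    have h2 := hG'' _ (hin s hs')
    have h3 : HasFDerivAt D.G (G' (γ s)) (D.Gam γ τ x s) := by rw [← hs.eq hs']; exact h1
    have h4 := (D.V_deriv γ s).sub (h3.comp_hasDerivAt s (D.Gam_deriv γ τ x s))
    refine h4.congr_deriv ?_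
    simp only [e, map_sub, ← hs.eq hs', h2]
    abel
  have he0 : ∀ s ∈ Icc 0 D.T, e s = 0 :=
    eq_zero_of_abs_deriv_le_mul_abs_self_of_eq_zero_right (K := D.L)
      (f' := fun s => -(G' (γ s) (e s)))
      (fun s hs' => (he s hs').continuousAt.continuousWithinAt)
      (fun s hs' => (he s (Ico_subset_Icc_self hs')).hasDerivWithinAt)
      (by simp [e, V_zero, ← hs.eq z])
      (fun s hs' => by
        rw [norm_neg]
        refine (ContinuousLinearMap.le_opNorm _ _).trans (mul_le_mul_of_nonneg_right ?_ (norm_nonneg _))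
        exact (hG' _ (hin s (Ico_subset_Icc_self hs'))).le_of_lipschitz D.lG)
  let ψ : ℝ → ℝ := fun s => D.A γ s - D.g (D.Gam γ τ x s)
  have hψ : ∀ s ∈ Icc 0 D.T, HasDerivAt ψ 0 s := fun s hs' => by
    have h1 := (D.hg (D.Gam γ τ x s)).hasFDerivAt.comp_hasDerivAt s (D.Gam_deriv γ τ x s)
    refine ((D.A_deriv γ s).sub h1).congr_deriv ?_
    have h2 : D.V γ s = D.G (γ s) := by
      have := he0 s hs'
      simp only [e, ← hs.eq hs'] at this
      exact sub_eq_zero.1 this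
    simp only [← hs.eq hs', InnerProductSpace.toDual_apply_apply, h2, (hS _ (hin s hs')).1,
      real_inner_self_eq_norm_sq]
    ring
  have := constant_of_has_deriv_right_zero (f := ψ) (a := 0) (b := D.T)
    (fun s hs' => (hψ s hs').continuousAt.continuousWithinAt)
    (fun s hs' => (hψ s (Ico_subset_Icc_self hs')).hasDerivWithinAt) τ hτ
  simp only [ψ, ← hs.eq z, ← hs.eq hτ, hs.self hτ, A, intervalIntegral.integral_same, add_zero,
    sub_self] at this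
  simp only [u, A, ← hγ]
  linarith

end HJData

end Pool.Agent.H308Z.MFG
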