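import Pool.Agent.H308Z.MFG.HJ

set_option autoImplicit false
open MeasureTheory Set Filter Topology
open scoped Manifold

namespace Pool.Agent.H308Z.MFG

variable {E : Type*} [NormedAddCommGroup E] [InnerProductSpace ℝ E] [FiniteDimensional ℝ E]

theorem exists_cut {V C : Set E} (hV : IsOpen V) (hC : IsCompact C) (hCV : C ⊆ V) :
    ∃ N : Set E, IsOpen N ∧ C ⊆ N ∧ N ⊆ V ∧ ∀ f : E → ℝ, ContDiffOn ℝ 2 f V →
      ∃ f' : E → ℝ, ContDiff ℝ 2 f' ∧ HasCompactSupport f' ∧ EqOn f' f N := by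
  obtain ⟨L, hL, hCL, hLV⟩ := exists_compact_between hC hV hCV
  obtain ⟨ω, h1, h0, -⟩ := exists_contMDiffMap_one_nhds_of_subset_interior (n := 2) 𝓘(ℝ, E)
    hC.isClosed hCL
  have hω : ContDiff ℝ 2 ω := by
    have := ω.contMDiff.contDiff
    exact this
  obtain ⟨N, hN, hCN, hN1⟩ := mem_nhdsSet_iff_exists.1 h1
  refine ⟨N ∩ V, hN.inter hV, subset_inter hCN hCV, inter_subset_right, fun f hf => ?_⟩
  refine ⟨fun x => ω x * f x, ?_, ?_, fun x hx => ?_⟩
  · rw [contDiff_iff_contDiffAt]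
    intro x
    by_cases hx : x ∈ V
    · exact hω.contDiffAt.mul (hf.contDiffAt (hV.mem_nhds hx))
    · have : ∀ᶠ y in 𝓝 x, y ∉ L := hL.isClosed.isOpen_compl.mem_nhds fun h => hx (hLV h)
      refine (contDiffAt_const (c := (0:ℝ))).congr_of_eventuallyEq ?_
      filter_upwards [this] with y hy
      simp [h0 y hy]
  · exact HasCompactSupport.intro hL fun x hx => by simp [h0 x hx]
  · have : ω x = 1 := hN1 hx.1
    simp [this]

theorem grad_props [CompleteSpace E] {f : E → ℝ} (hf : ContDiff ℝ 2 f) (hc : HasCompactSupport f) :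
    (∀ x, HasGradientAt f (gradient f x) x) ∧ ContDiff ℝ 1 (gradient f) ∧
      (∃ L, LipschitzWith L (gradient f)) ∧ (∃ M, ∀ x, ‖gradient f x‖ ≤ M) ∧ ∃ M, ∀ x, |f x| ≤ M := by
  have h1 : ContDiff ℝ 1 (fderiv ℝ f) := hf.fderiv_right (m := 1) (by norm_num)
  have e : gradient f = (InnerProductSpace.toDual ℝ E).symm ∘ fderiv ℝ f := rfl
  have h2 : ContDiff ℝ 1 (gradient f) := by
    rw [e]
    exact (InnerProductSpace.toDual ℝ E).symm.toContinuousLinearEquiv.contDiff.comp h1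
  have h3 : HasCompactSupport (gradient f) := by
    rw [e]
    exact (hc.fderiv ℝ).comp_left (by simp)
  refine ⟨fun x => (hf.differentiable (by norm_num) x).hasGradientAt, h2,
    ContDiff.lipschitzWith_of_hasCompactSupport h3 h2 (by norm_num),
    h3.exists_bound_of_continuous h2.continuous, ?_⟩
  simpa using hc.exists_bound_of_continuous hf.continuous

theorem stat_aux [CompleteSpace E] {g q : E → ℝ} (hg : ContDiff ℝ 2 g) (h1 : ContDiff ℝ 1 (gradient g)) {y : E}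
    (h : q =ᶠ[𝓝 y] fun z => ‖gradient g z‖ ^ 2 / 2) :
    ∃ G' : E →L[ℝ] E, HasFDerivAt (gradient g) G' y ∧ G' (gradient g y) = gradient q y := by
  have hd := (h1.differentiable (by norm_num) y).hasFDerivAt
  refine ⟨_, hd, ?_⟩
  have hsym := hg.contDiffAt (x := y) |>.isSymmSndFDerivAt (by simp)
  have hin : ∀ a b, inner ℝ (fderiv ℝ (gradient g) y a) b = fderiv ℝ (fderiv ℝ g) y a b := by
    intro a b
    have e : fderiv ℝ g = (innerSL ℝ (E := E)) ∘ gradient g := by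
      ext z v
      simp [inner_gradient_left]
    have := ((innerSL ℝ (E := E)).hasFDerivAt.comp y hd).fderiv
    rw [e, this]
    rfl
  have hq : HasFDerivAt q ((innerSL ℝ (gradient g y)).comp (fderiv ℝ (gradient g) y)) y := by
    refine HasFDerivAt.congr_of_eventuallyEq ?_ h
    have := hd.norm_sq.const_mul (1 / 2 : ℝ)
    refine (this.congr_fderiv ?_).congr_of_eventuallyEq (Eventually.of_forall fun z => by ring)
    ext v
    simp
  refine ext_inner_right ℝ fun v => ?_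
  rw [inner_gradient_left, hq.fderiv, hin, hsym.eq, ← hin]
  simp

theorem local_HJ [CompleteSpace E] {g0 q0 : E → ℝ} {V S C CS : Set E} (hV : IsOpen V) (hS : IsOpen S)
    (hC : IsCompact C) (hCS : IsCompact CS) (hCV : C ⊆ V) (hCSS : CS ⊆ S) (hCSC : CS ⊆ C)
    (hg : ContDiffOn ℝ 2 g0 V) (hq : ContDiffOn ℝ 2 q0 V)
    (hstat : ∀ y ∈ S, q0 y = ‖gradient g0 y‖ ^ 2 / 2) {δ : ℝ} (hδ : 0 < δ) :
    ∃ T > 0, ∃ (u : ℝ × E → ℝ) (w : ℝ × E → E), ContDiffOn ℝ 1 u (Ioo 0 T ×ˢ univ) ∧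
      (∀ τ ∈ Ioo 0 T, ∀ x ∈ C, HasFDerivAt u
        ((q0 x - ‖w (τ, x)‖ ^ 2 / 2) • ContinuousLinearMap.fst ℝ ℝ E
          + (innerSL ℝ (w (τ, x))).comp (ContinuousLinearMap.snd ℝ ℝ E)) (τ, x)) ∧
      (∀ τ ∈ Ioo 0 T, ∀ x ∈ C, |u (τ, x) - g0 x| ≤ δ) ∧
      (∀ τ ∈ Ioo 0 T, ∀ x ∈ CS, u (τ, x) = g0 x) := by
  obtain ⟨N, hN, hCN, hNV, hcut⟩ := exists_cut hV hC hCV
  obtain ⟨g, g2, gc, ge⟩ := hcut g0 hg
  obtain ⟨q, q2, qc, qe⟩ := hcut q0 hq
  obtain ⟨g1, gd, ⟨Lg, gL⟩, ⟨Mg, gM⟩, -⟩ := grad_props g2 gc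
  obtain ⟨q1, -, ⟨Lq, qL⟩, ⟨Mq, qM⟩, ⟨Mq', qM'⟩⟩ := grad_props q2 qc
  obtain ⟨r, hr, hrS⟩ := hCS.exists_cthickening_subset_open (hS.inter hN)
    (subset_inter hCSS (hCSC.trans hCN))
  set L : NNReal := max Lg Lq with hL
  set M : ℝ := max Mg (max Mq Mq') with hM
  have hM0 : 0 ≤ M := ((norm_nonneg _).trans (gM 0)).trans (le_max_left _ _)
  have hL0 : (0:ℝ) ≤ L := L.2
  set T : ℝ := min (min 1 (1 / (4 * L + 1))) (min (r / (2 * M + 1)) (δ / (4 * M ^ 2 + M + 1))) with hT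
  have hT0 : 0 < T := by positivity
  have hT1 : T ≤ 1 := (min_le_left _ _).trans (min_le_left _ _)
  have hT2 : T ≤ 1 / (4 * L + 1) := (min_le_left _ _).trans (min_le_right _ _)
  have hT3 : T ≤ r / (2 * M + 1) := (min_le_right _ _).trans (min_le_left _ _)
  have hT4 : T ≤ δ / (4 * M ^ 2 + M + 1) := (min_le_right _ _).trans (min_le_right _ _)
  rw [le_div_iff₀ (by positivity)] at hT2 hT3 hT4
  let D : HJData E :=
    { g := g, q := q, G := gradient g, F := gradient q, L := L, M := M, T := T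
      hg := g1, hq := q1
      lG := gL.weaken (le_max_left _ _), lF := qL.weaken (le_max_right _ _)
      bG := fun x => (gM x).trans (le_max_left _ _)
      bF := fun x => (qM x).trans ((le_max_left _ _).trans (le_max_right _ _))
      bq := fun x => (qM' x).trans ((le_max_right _ _).trans (le_max_right _ _))
      T0 := hT0, T1 := hT1, TL := by nlinarith }
  refine ⟨T, hT0, D.u, D.w, D.u_contDiffOn, fun τ hτ x hx => ?_, fun τ hτ x hx => ?_,
    fun τ hτ x hx => ?_⟩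
  · have := D.u_fderiv (z := (τ, x)) hτ
    rw [← qe (hCN hx)]
    exact this
  · have := D.u_near (Ioo_subset_Icc_self hτ) x
    rw [← ge (hCN hx)]
    refine this.trans ?_
    show (4 * M ^ 2 + M) * T ≤ δ
    nlinarith
  · rw [← ge (hCN (hCSC hx))]
    refine D.u_stat (Ioo_subset_Icc_self hτ) x fun y hy => ?_
    have hy' : y ∈ S ∩ N := by
      refine hrS (Metric.closedBall_subset_cthickening hx r
        (Metric.closedBall_subset_closedBall ?_ hy))
      show 2 * M * T ≤ r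
      nlinarith
    have hev : q =ᶠ[𝓝 y] fun z => ‖gradient g z‖ ^ 2 / 2 := by
      filter_upwards [(hS.inter hN).mem_nhds hy'] with z hz
      have : g =ᶠ[𝓝 z] g0 := by
        filter_upwards [hN.mem_nhds hz.2] with a ha using ge ha
      rw [qe hz.2, hstat z hz.1, this.gradient_eq]
    exact ⟨hev.self_of_nhds, stat_aux g2 gd hev⟩

end Pool.Agent.H308Z.MFG
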