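import Pool.Agent.H308Z.MFG.Geo
import Pool.Agent.H308Z.MFG.Energy
import Pool.Agent.H308Z.MFG.HJLoc

set_option autoImplicit false
open MeasureTheory Set Filter Topology Complex

namespace Pool.Agent.H308Z.MFG

noncomputable def hh (s : ℝ) : ℝ := √(2 * s / max (3 - s) 1)
noncomputable def Pt (n : ℝ) : ℝ := ∫ s in (0:ℝ)..n, hh s

theorem hh_cont : Continuous hh :=
  (Continuous.div (by fun_prop) (by fun_prop) fun s => by positivity).sqrt

theorem hh_zero {s : ℝ} (h : s ≤ 0) : hh s = 0 :=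
  Real.sqrt_eq_zero_of_nonpos (div_nonpos_of_nonpos_of_nonneg (by linarith) (by positivity))

theorem hh_sq {s : ℝ} (h : 0 ≤ s) (h2 : s ≤ 2) : hh s ^ 2 * (3 - s) = 2 * s := by
  rw [hh, Real.sq_sqrt (by positivity), max_eq_left (by linarith)]
  have : 3 - s ≠ 0 := by linarith
  field_simp

theorem Pt_deriv (n : ℝ) : HasDerivAt Pt (hh n) n := ftc hh_cont 0 n

theorem deriv_Pt : deriv Pt = hh := funext fun n => (Pt_deriv n).deriv

theorem Pt_contDiff : ContDiff ℝ 1 Pt :=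
  contDiff_one_iff_deriv.2 ⟨fun n => (Pt_deriv n).differentiableAt, deriv_Pt ▸ hh_cont⟩

theorem Pt_zero {n : ℝ} (h : n ≤ 0) : Pt n = 0 := by
  rw [Pt, intervalIntegral.integral_congr (g := fun _ => 0)]
  · simp
  · intro s hs
    rw [uIcc_of_ge h] at hs
    exact hh_zero hs.2

theorem Pt_pos {n : ℝ} (h : 0 < n) : 0 < Pt n :=
  intervalIntegral.intervalIntegral_pos_of_pos_on (hh_cont.intervalIntegrable _ _)
    (fun s hs => Real.sqrt_pos.2 (div_pos (by linarith [hs.1]) (by positivity))) h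

theorem Pt_nonneg (n : ℝ) : 0 ≤ Pt n := by
  rcases le_or_gt n 0 with h | h
  · rw [Pt_zero h]
  · exact (Pt_pos h).le

theorem Pt_contDiffAt {n : ℝ} (h : n ∈ Ioo (0:ℝ) 2) : ContDiffAt ℝ 2 Pt n := by
  have : ContDiffOn ℝ (1 + 1) Pt (Ioo 0 2) := by
    rw [contDiffOn_succ_iff_deriv_of_isOpen isOpen_Ioo]
    refine ⟨fun n _ => (Pt_deriv n).differentiableAt.differentiableWithinAt, by simp, ?_⟩
    rw [deriv_Pt]
    intro s hs
    have h3 : 3 - s ≠ 0 := by linarith [hs.2]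
    have h1 : ContDiffAt ℝ 1 (fun s : ℝ => √(2 * s / (3 - s))) s :=
      ContDiffAt.sqrt (ContDiffAt.div (by fun_prop) (by fun_prop) h3)
        (div_ne_zero (by linarith [hs.1]) h3)
    refine h1.contDiffWithinAt.congr (fun y hy => ?_) ?_
    · rw [hh, max_eq_left (by linarith [hy.2])]
    · rw [hh, max_eq_left (by linarith [hs.2])]
  exact this.contDiffAt (isOpen_Ioo.mem_nhds h)

noncomputable def Nz (z : ℂ) : ℝ := 3 - ‖sq2 z + 1‖ ^ 2
noncomputable def ez (z : ℂ) : ℝ := Pt (Nz z)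
noncomputable def q0 (z : ℂ) : ℝ := Nz z / ‖sq2 z‖ ^ 2
noncomputable def thz (z : ℂ) : ℝ := St (45 / 100) (55 / 100) (sq2 z).re
noncomputable def g0 (z : ℂ) : ℝ := -((1 - thz z) * ez z + thz z)

theorem Nz_contDiffAt {z : ℂ} (h : z ∈ slitPlane) : ContDiffAt ℝ 2 Nz z :=
  contDiffAt_const.sub (((sq2_contDiffAt h 2).add contDiffAt_const).norm_sq ℝ)

theorem Nz_lt {z : ℂ} (h : z ∈ slitPlane) : Nz z < 2 := by
  have := sq2_re_pos h
  rw [Nz, Complex.sq_norm, normSq_apply]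
  simp
  nlinarith [mul_self_nonneg (sq2 z).im]

theorem re_contDiffAt {z : ℂ} (h : z ∈ slitPlane) : ContDiffAt ℝ 2 (fun z => (sq2 z).re) z :=
  reCLM.contDiff.contDiffAt.comp z (sq2_contDiffAt h 2)

theorem ez_fderiv {z : ℂ} (h : z ∈ slitPlane) (h0 : 0 ≤ Nz z) :
    ∃ P : ℂ, HasFDerivAt ez (innerSL ℝ P) z ∧ ‖P‖ ^ 2 = 2 * q0 z := by
  have hn := sq2_ne h
  refine ⟨-(hh (Nz z)) • ((sq2 z + 1) * (starRingEnd ℂ) (1 / sq2 z)), ?_, ?_⟩
  · have d1 := ((sq2_deriv h).complexToReal_fderiv.add_const 1).norm_sq.const_sub 3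
    have d2 := (Pt_deriv (Nz z)).hasFDerivAt.comp z d1
    refine d2.congr_fderiv ?_
    ext1 v
    have e : (1 / (2 * sq2 z)) = (1 / 2 : ℝ) * (1 / sq2 z) := by push_cast; field_simp
    simp only [ContinuousLinearMap.comp_apply, smul_apply, neg_apply, innerSL_apply_apply, e,
      one_apply_eq_self, smul_eq_mul, inner_smul_left, Complex.inner, map_mul, conj_conj, conj_trivial]
    simp
    ring
  · have h1 := hh_sq h0 (Nz_lt h).le
    have h2 := norm_ne_zero_iff.2 hn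
    rw [norm_smul, norm_mul, RCLike.norm_conj, norm_div, norm_one, Real.norm_eq_abs, mul_pow, sq_abs, q0]
    field_simp
    rw [← h1, Nz]; ring

def VV : Set ℂ := slitPlane ∩ ({z | 55 / 100 < (sq2 z).re} ∪ {z | 0 < Nz z})
def SS : Set ℂ := slitPlane ∩ ({z | (sq2 z).re < 45 / 100} ∩ {z | 0 < Nz z})

theorem VV_open : IsOpen VV := by
  rw [isOpen_iff_mem_nhds]
  rintro z ⟨h, h' | h'⟩
  · filter_upwards [isOpen_slitPlane.mem_nhds h, (re_contDiffAt h).continuousAt.eventually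
      (Ioi_mem_nhds h')] with y a b using ⟨a, Or.inl b⟩
  · filter_upwards [isOpen_slitPlane.mem_nhds h, (Nz_contDiffAt h).continuousAt.eventually
      (Ioi_mem_nhds h')] with y a b using ⟨a, Or.inr b⟩

theorem SS_open : IsOpen SS := by
  rw [isOpen_iff_mem_nhds]
  rintro z ⟨h, h1, h2⟩
  filter_upwards [isOpen_slitPlane.mem_nhds h, (re_contDiffAt h).continuousAt.eventually
    (Iio_mem_nhds h1), (Nz_contDiffAt h).continuousAt.eventually (Ioi_mem_nhds h2)]
    with y a b c using ⟨a, b, c⟩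

theorem g0_contDiffOn : ContDiffOn ℝ 2 g0 VV := by
  rintro z ⟨h, h'⟩
  refine ContDiffAt.contDiffWithinAt ?_
  rcases h' with h' | h'
  · refine (contDiffAt_const (c := (-1:ℝ))).congr_of_eventuallyEq ?_
    filter_upwards [(re_contDiffAt h).continuousAt.eventually (Ioi_mem_nhds h')] with y hy
    rw [g0, thz, St_one (by norm_num) (le_of_lt hy)]; ring
  · have h1 : ContDiffAt ℝ 2 thz z :=
      ((Real.smoothTransition.contDiff (n := 2)).contDiffAt).comp z
        (((re_contDiffAt h).sub contDiffAt_const).div_const _)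
    have h2 : ContDiffAt ℝ 2 ez z := (Pt_contDiffAt ⟨h', Nz_lt h⟩).comp z (Nz_contDiffAt h)
    exact (((contDiffAt_const.sub h1).mul h2).add h1).neg

theorem q0_contDiffOn : ContDiffOn ℝ 2 q0 VV := fun _ h =>
  ((Nz_contDiffAt h.1).div ((sq2_contDiffAt h.1 2).norm_sq ℝ)
    (pow_ne_zero _ (norm_ne_zero_iff.2 (sq2_ne h.1)))).contDiffWithinAt

theorem g0_SS {z : ℂ} (h : z ∈ SS) : g0 z = -ez z := by
  rw [g0, thz, St_zero (by norm_num) (le_of_lt h.2.1)]; ring

theorem stat {z : ℂ} (h : z ∈ SS) : q0 z = ‖gradient g0 z‖ ^ 2 / 2 := by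
  obtain ⟨P, h1, h2⟩ := ez_fderiv h.1 (le_of_lt h.2.2)
  have h3 : HasGradientAt g0 (-P) z := by
    rw [hasGradientAt_iff_hasFDerivAt]
    refine (h1.neg.congr_fderiv ?_).congr_of_eventuallyEq ?_
    · ext1 v; simp
    · filter_upwards [SS_open.mem_nhds h] with y hy using g0_SS hy
  rw [h3.gradient, norm_neg, h2]; ring

theorem g0_neg {z : ℂ} (h : z ∈ VV) : 0 < -g0 z := by
  rw [g0, neg_neg]
  rcases h.2 with h' | h'
  · rw [thz, St_one (by norm_num) (le_of_lt h')]; norm_num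
  · have a : 0 < ez z := Pt_pos h'
    have b : 0 ≤ thz z := Real.smoothTransition.nonneg _
    have c : thz z ≤ 1 := Real.smoothTransition.le_one _
    rcases b.eq_or_lt with b | b
    · rw [← b]; simpa using a
    · nlinarith

theorem inner_facts {w : ℂ} (h : w ∈ U) (h' : (rt w).re ≤ sg w.im) :
    KK w ∈ slitPlane ∧ sq2 (KK w) = 2 - rt w ∧ Nz (KK w) = NN w ∧
      q0 (KK w) = (1 / ‖kk w‖ ^ 2 - 3) / 2 := by
  obtain ⟨a, b, -⟩ := inner_eq ((le_al_iff h).2 h')
  have t := t_re_pos h h'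
  have e : sq2 (KK w) = 2 - rt w := by rw [a, Kin, sq2_of_sq t]
  have e2 : Nz (KK w) = NN w := by
    rw [Nz, NN, e, ← norm_neg]; congr 3; ring
  refine ⟨by rw [a]; exact sq_mem_slit t, e, e2, ?_⟩
  rw [q0, e2, e, b, kin_norm h]; ring

theorem NN_pos {w : ℂ} (h : w ∈ U) (h1 : 145 / 100 ≤ (rt w).re) (h2 : (rt w).re < sg w.im) :
    0 < NN w := by
  obtain ⟨a, b, c⟩ := sg_bd h
  rw [NN_fac h]; nlinarith

theorem NN_nonpos {w : ℂ} (h : w ∈ U) (h2 : sg w.im ≤ (rt w).re) : NN w ≤ 0 := by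
  obtain ⟨a, b, c⟩ := sg_bd h
  rw [NN_fac h]; nlinarith

theorem slow_facts {w : ℂ} (h : w ∈ U) (h1 : |w.re| ≤ 1 / 100) : 1 / ‖kk w‖ ^ 2 < 3 := by
  have e1 := rt_eq1 w
  have e2 := rt_eq2 w
  have p := rt_re h
  have a := al_gt h
  have s1 : 157 / 100 < w.im := h.1
  have s2 : w.im < 159 / 100 := h.2
  have b : w.re ^ 2 ≤ (1 / 100) ^ 2 := by rw [← sq_abs]; exact pow_le_pow_left₀ (abs_nonneg _) h1 2
  have c : 4 * (rt w).re ^ 2 * (rt w).im ^ 2 = w.re ^ 2 := by
    rw [← neg_sq w.re, ← e2]; ring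
  have d : (rt w).im ^ 2 ≤ 1 / 10000 := by nlinarith [sq_nonneg (rt w).im]
  have f : (rt w).re < 1262 / 1000 := by nlinarith
  have g : NN w < 0 := by rw [NN_eq]; nlinarith [sq_nonneg (rt w).im]
  rw [(inner_eq (by linarith)).2.1]
  have := kin_norm h
  have k := norm_pos_iff.2 (two_sub_ne h)
  have : 2 * NN w / ‖2 - rt w‖ ^ 2 < 0 := div_neg_of_neg_of_pos (by linarith) (by positivity)
  linarith

theorem local_inv {O : Set ℂ} (hO : IsOpen O) (hOU : O ⊆ U) {Th : ℂ → ℂ}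
    (hTh : ∀ w ∈ O, Th (KK w) = w) {w : ℂ} (hw : w ∈ O) :
    ContDiffAt ℝ 1 Th (KK w) ∧ ∀ A ∈ 𝓝 w, KK '' A ∈ 𝓝 (KK w) := by
  obtain ⟨e, he⟩ := DD_equiv (kk_ne (hOU hw)) (m := mm w) (by linarith [mm_ge (hOU hw)])
  have hc := (orth.contDiffOn U_open).contDiffAt (U_open.mem_nhds (hOU hw))
  have hd : HasFDerivAt KK (e : ℂ →L[ℝ] ℂ) w := by rw [he]; exact orth.1 w (hOU hw)
  have hs := hc.hasStrictFDerivAt' hd (by norm_num)
  constructor
  · refine (hc.to_localInverse hd (by norm_num)).congr_of_eventuallyEq ?_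
    exact hs.localInverse_unique (by filter_upwards [hO.mem_nhds hw] with x hx using hTh x hx)
  · intro A hA
    rw [← hs.map_nhds_eq_of_equiv]
    exact image_mem_map hA

theorem exists_rect : ∃ (O : Set ℂ) (A ε ε' : ℝ), IsOpen O ∧ O ⊆ U ∧ InjOn KK O ∧ 0 < ε ∧ 0 < ε' ∧
    1 < A ∧ Icc (-A - 4 * ε) (A + 4 * ε) ×ℂ Icc (158 / 100 - ε') (158 / 100 + ε') ⊆ O ∧
    ∀ s ∈ Icc (158 / 100 - ε') (158 / 100 + ε'), |al s - A| < ε := by
  obtain ⟨O, h1, h2, h3, h4⟩ := exists_O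
  have hm : (158 / 100 : ℝ) ∈ Ioo (157 / 100 : ℝ) (159 / 100) := by norm_num
  obtain ⟨r, hr, hr'⟩ := (isCompact_Icc.reProdIm isCompact_singleton).exists_cthickening_subset_open h1 h4
  have hA := al_gt hm
  set A := al (158 / 100)
  obtain ⟨d, hd, hd'⟩ := Metric.continuousAt_iff.1 (al_deriv hm).continuousAt (r / 5) (by positivity)
  refine ⟨O, A, r / 5, min (d / 2) (r / 5), h1, h2, h3, by positivity, by positivity, hA,
    fun w hw => hr' ?_, fun s hs => ?_⟩
  · have a : w.re ∈ Icc (-A - 4 * (r / 5)) (A + 4 * (r / 5)) := hw.1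
    have b : w.im ∈ Icc (158 / 100 - min (d / 2) (r / 5)) (158 / 100 + min (d / 2) (r / 5)) := hw.2
    have m2 := min_le_right (d / 2) (r / 5)
    refine Metric.mem_cthickening_of_dist_le w ⟨max (-A) (min w.re A), 158 / 100⟩ r _
      ⟨⟨le_max_left _ _, max_le (by linarith) (min_le_right _ _)⟩, rfl⟩ ?_
    rw [dist_eq_norm]
    refine (norm_le_abs_re_add_abs_im _).trans ?_
    have c : |w.re - max (-A) (min w.re A)| ≤ 4 * (r / 5) := by
      rw [abs_le]
      rcases le_total w.re A with p | p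
      · rw [min_eq_left p]
        rcases le_total (-A) w.re with q | q
        · rw [max_eq_right q]; constructor <;> linarith
        · rw [max_eq_left q]; constructor <;> linarith [a.1]
      · rw [min_eq_right p, max_eq_right (by linarith)]; constructor <;> linarith [a.2]
    have e : |w.im - 158 / 100| ≤ r / 5 := by
      rw [abs_le]; constructor <;> linarith [b.1, b.2]
    simp only [sub_re, sub_im]
    linarith
  · have m1 := min_le_left (d / 2) (r / 5)
    have := hd' (x := s) (by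
      rw [Real.dist_eq, abs_lt]; constructor <;> linarith [hs.1, hs.2])
    rwa [Real.dist_eq] at this

theorem exists_chan : Nonempty Chan := by
  obtain ⟨O, A, ε, ε', hO, hOU, hinj, hε, hε', hA, hRO, hal⟩ := exists_rect
  set Rb := Icc (-A - 4 * ε) (A + 4 * ε) ×ℂ Icc (158 / 100 - ε') (158 / 100 + ε') with hRb
  have hRc : IsCompact Rb := isCompact_Icc.reProdIm isCompact_Icc
  have hRU : Rb ⊆ U := hRO.trans hOU
  let Th := Function.invFunOn KK O
  have hTh : ∀ w ∈ O, Th (KK w) = w := fun w hw => hinj.leftInvOn_invFunOn hw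
  have hKc : ContinuousOn KK U := (orth.contDiffOn U_open).continuousOn
  have xc : ContinuousOn (fun w => (rt w).re) Rb := continuous_re.comp_continuousOn (rt_cont.mono hRU)
  have cpt : ∀ J : Set ℝ, IsClosed J → IsCompact (KK '' (Rb ∩ (fun w => (rt w).re) ⁻¹' J)) := fun J hJ =>
    (hRc.of_isClosed_subset (xc.preimage_isClosed_of_isClosed hRc.isClosed hJ)
      inter_subset_left).image_of_continuousOn (hKc.mono (inter_subset_left.trans hRU))
  have lt_sg : ∀ w ∈ Rb, (rt w).re ≤ 162 / 100 → (rt w).re < sg w.im := fun w hw h => by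
    linarith [(sg_bd (hRU hw)).1]
  have hCV : KK '' (Rb ∩ (fun w => (rt w).re) ⁻¹' Iic (162 / 100)) ⊆ VV := by
    rintro _ ⟨w, ⟨hw, h⟩, rfl⟩
    have l := lt_sg w hw h
    obtain ⟨a, b, c, -⟩ := inner_facts (hRU hw) l.le
    refine ⟨a, ?_⟩
    rcases lt_or_ge (rt w).re (145 / 100) with p | p
    · left; simp only [mem_ofPred_eq, b, sub_re, re_ofNat]; linarith
    · right; simp only [mem_ofPred_eq, c]; exact NN_pos (hRU hw) p l
  have hCS : KK '' (Rb ∩ (fun w => (rt w).re) ⁻¹' Icc (158 / 100) (162 / 100)) ⊆ SS := by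
    rintro _ ⟨w, ⟨hw, h⟩, rfl⟩
    have l := lt_sg w hw h.2
    obtain ⟨a, b, c, -⟩ := inner_facts (hRU hw) l.le
    refine ⟨a, ?_, ?_⟩
    · simp only [mem_ofPred_eq, b, sub_re, re_ofNat]; linarith [h.1]
    · simp only [mem_ofPred_eq, c]; exact NN_pos (hRU hw) (by linarith [h.1]) l
  obtain ⟨δ, hδ, hδ'⟩ := (cpt _ isClosed_Iic).exists_forall_le' (f := fun z => -g0 z) (a := 0)
    (g0_contDiffOn.continuousOn.mono hCV).neg fun z hz => g0_neg (hCV hz)
  obtain ⟨T0, hT0, u, W, hu, hud, hun, hus⟩ := local_HJ VV_open SS_open (cpt _ isClosed_Iic)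
    (cpt _ isClosed_Icc) hCV hCS (image_mono (inter_subset_inter_right _ fun _ h => h.2))
    g0_contDiffOn q0_contDiffOn (fun _ h => stat h) hδ
  set T := min (T0 / 2) (ε / 3) with hT
  have hTp : 0 < T := by positivity
  have hT1 : T ≤ T0 / 2 := min_le_left _ _
  have hT2 : T ≤ ε / 3 := min_le_right _ _
  have sh : ∀ τ ∈ Icc 0 T, τ + T0 / 4 ∈ Ioo 0 T0 := fun τ hτ => ⟨by linarith [hτ.1], by linarith [hτ.2]⟩
  let pm : ℝ × ℂ → ℝ := fun z => -u (z.1 + T0 / 4, z.2)
  let pe : ℂ → ℝ := fun z => Pt (NN (Th z))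
  let p : ℝ × ℂ → ℝ := fun z => if (rt (Th z.2)).re ≤ 16 / 10 then pm z else pe z.2
  have Thc : ∀ w ∈ Rb, ContDiffAt ℝ 1 Th (KK w) := fun w hw => (local_inv hO hOU hTh (hRO hw)).1
  have rtc : ∀ w ∈ Rb, ContDiffAt ℝ 1 (fun z => rt (Th z)) (KK w) := fun w hw => by
    have := rt_contDiffAt (hRU hw) 1
    rw [← hTh w (hRO hw)] at this
    exact this.comp _ (Thc w hw)
  have xcc : ∀ τ : ℝ, ∀ w ∈ Rb, Tendsto (fun z : ℝ × ℂ => (rt (Th z.2)).re) (𝓝 (τ, KK w)) (𝓝 (rt w).re) :=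
    fun τ w hw => by
      have := ContinuousAt.comp (f := Prod.snd) (x := (τ, KK w))
        (continuous_re.continuousAt.comp (rtc w hw).continuousAt) continuousAt_snd
      unfold ContinuousAt at this
      simpa only [Function.comp_def, hTh w (hRO hw)] using this
  have NNc : ∀ w ∈ Rb, ContDiffAt ℝ 1 (fun z => NN (Th z)) (KK w) := fun w hw =>
    contDiffAt_const.sub (((rtc w hw).sub contDiffAt_const).norm_sq ℝ)
  have pec : ∀ w ∈ Rb, ContDiffAt ℝ 1 pe (KK w) := fun w hw =>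
    Pt_contDiff.contDiffAt.comp _ (NNc w hw)
  have ev1 : ∀ τ : ℝ, ∀ w ∈ Rb, (rt w).re < 16 / 10 → p =ᶠ[𝓝 (τ, KK w)] pm := fun τ w hw h => by
    filter_upwards [(xcc τ w hw).eventually (Iio_mem_nhds h)] with z hz using if_pos (le_of_lt hz)
  have ev2 : ∀ τ : ℝ, ∀ w ∈ Rb, 16 / 10 ≤ (rt w).re →
      p =ᶠ[𝓝[Icc 0 T ×ˢ (KK '' Rb)] (τ, KK w)] fun z => pe z.2 := fun τ w hw h => by
    filter_upwards [self_mem_nhdsWithin, nhdsWithin_le_nhds
      ((xcc τ w hw).eventually (Ioi_mem_nhds (show 158 / 100 < (rt w).re by linarith)))] with z hz hz'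
    obtain ⟨τ', x⟩ := z
    obtain ⟨hτ', w', hw', e⟩ := hz
    simp only at e hτ'
    subst e
    simp only [hTh w' (hRO hw')] at hz'
    simp only [p, hTh w' (hRO hw')]
    split_ifs with hh
    · have hm : KK w' ∈ KK '' (Rb ∩ (fun w => (rt w).re) ⁻¹' Icc (158 / 100) (162 / 100)) :=
        ⟨w', ⟨hw', le_of_lt hz', by simp only; linarith⟩, rfl⟩
      simp only [pm, pe, hus _ (sh τ' hτ') _ hm, g0_SS (hCS hm), neg_neg, ez, hTh w' (hRO hw'),
        (inner_facts (hRU hw') (lt_sg w' hw' (by linarith)).le).2.2.1]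
    · rfl
  have hal' : ∀ w ∈ Rb, A - ε < al w.im ∧ al w.im < A + ε := fun w hw => by
    have := abs_lt.1 (hal w.im hw.2)
    constructor <;> linarith [this.1, this.2]
  refine ⟨{
    K := KK, k := kk, m := mm, O := O, Th := Th, a0 := -A - 4 * ε, a1 := A + 4 * ε
    s0 := 158 / 100 - ε', s1 := 158 / 100 + ε', c := 3, T := T, b0 := -A - 3 * ε, b1 := A + 5 / 2 * ε
    l1 := -(1 / 100), r1 := 1 / 100, l2 := A + ε, r2 := A + 2 * ε, p := p
    hO := hO, hRO := hRO, hs := by linarith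
    hK := fun w hw => orth.1 w (hOU hw), hKc := (orth.contDiffOn U_open).mono hOU
    kc := orth.2.1.mono hOU, mc := orth.2.2.mono hOU
    k0 := fun w hw => kk_ne (hOU hw), m1 := fun w hw => mm_ge (hOU hw), hTh := hTh
    c0 := by norm_num, T0 := hTp
    o1 := by linarith, o2 := by linarith, o3 := by norm_num, o4 := by linarith, o5 := by linarith
    o6 := by linarith, o7 := by linarith
    outer := fun w hw h => ?_, slow := fun w hw h => slow_facts (hRU hw) (abs_le.2 h)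
    room := fun w hw h => mm_gt (hRU hw) (by linarith [(hal' w hw).2, h.1])
    pc := ?_, pd := ?_, p0 := ?_, psat := ?_ }⟩
  · refine kk_out (hRU hw) (le_abs.2 ?_)
    rcases h with h | h
    · right; linarith [(hal' w hw).2]
    · left; linarith [(hal' w hw).2]
  · rintro ⟨τ, x⟩ ⟨hτ, w, hw, e⟩
    simp only at e hτ
    subst e
    rcases lt_or_ge (rt w).re (16 / 10) with h | h
    · refine ContDiffAt.contDiffWithinAt (ContDiffAt.congr_of_eventuallyEq ?_ (ev1 τ w hw h))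
      have h1 := hu.contDiffAt ((isOpen_Ioo.prod isOpen_univ).mem_nhds
        (show (τ + T0 / 4, KK w) ∈ Ioo 0 T0 ×ˢ univ from ⟨sh τ hτ, mem_univ _⟩))
      exact (ContDiffAt.comp (τ, KK w) (f := fun z : ℝ × ℂ => (z.1 + T0 / 4, z.2)) h1 (by fun_prop)).neg
    · refine ContDiffWithinAt.congr_of_eventuallyEq_of_mem ?_ (ev2 τ w hw h) ⟨hτ, w, hw, rfl⟩
      exact (ContDiffAt.comp (τ, KK w) (f := Prod.snd) (pec w hw) contDiffAt_snd).contDiffWithinAt
  · intro τ hτ w hw0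
    have hw : w ∈ Rb := ⟨Ioo_subset_Icc_self hw0.1, Ioo_subset_Icc_self hw0.2⟩
    have hτ' := Ioo_subset_Icc_self hτ
    rcases lt_or_ge (rt w).re (16 / 10) with h | h
    · have hm : KK w ∈ KK '' (Rb ∩ (fun w => (rt w).re) ⁻¹' Iic (162 / 100)) :=
        ⟨w, ⟨hw, by simp only [mem_preimage, mem_Iic]; linarith⟩, rfl⟩
      have h1 := hud _ (sh τ hτ') _ hm
      have h2 : HasFDerivAt (fun z : ℝ × ℂ => (z.1 + T0 / 4, z.2)) (ContinuousLinearMap.id ℝ _)
          (τ, KK w) := by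
        refine ((hasFDerivAt_fst.add_const _).prodMk hasFDerivAt_snd).congr_fderiv ?_
        ext <;> simp
      refine ⟨-(q0 (KK w) - ‖W (τ + T0 / 4, KK w)‖ ^ 2 / 2), -W (τ + T0 / 4, KK w), ?_, ?_⟩
      · refine ((HasFDerivAt.comp (τ, KK w) h1 h2).neg.congr_fderiv ?_).congr_of_eventuallyEq
          (ev1 τ w hw h)
        ext1 <;> ext1 <;> simp
      · rw [norm_neg, (inner_facts (hRU hw) (lt_sg w hw (by linarith)).le).2.2.2]; ring
    · have hn : Icc 0 T ×ˢ (KK '' Rb) ∈ 𝓝 (τ, KK w) :=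
        prod_mem_nhds (Icc_mem_nhds hτ.1 hτ.2) ((local_inv hO hOU hTh (hRO hw)).2 _
          (mem_of_superset ((isOpen_Ioo.reProdIm isOpen_Ioo).mem_nhds hw0)
            fun _ h => ⟨Ioo_subset_Icc_self h.1, Ioo_subset_Icc_self h.2⟩))
      have ev := ev2 τ w hw h
      rw [nhdsWithin_eq_nhds.2 hn] at ev
      have key : ∃ P : ℂ, HasFDerivAt pe (innerSL ℝ P) (KK w) ∧ ‖P‖ ^ 2 = 1 / ‖kk w‖ ^ 2 - 3 := by
        rcases lt_or_ge (rt w).re (sg w.im) with g | g
        · obtain ⟨a, -, c, d⟩ := inner_facts (hRU hw) g.le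
          obtain ⟨P, h1, h2⟩ := ez_fderiv a (by rw [c]; exact (NN_pos (hRU hw) (by linarith) g).le)
          refine ⟨P, h1.congr_of_eventuallyEq ?_, by rw [h2, d]; ring⟩
          have hN : {w' ∈ O | |w'.re| < al w'.im} ∈ 𝓝 w := by
            have c1 : ContinuousAt (fun w' : ℂ => al w'.im - |w'.re|) w :=
              (al_im_cont.continuousAt (U_open.mem_nhds (hRU hw))).sub (by fun_prop)
            filter_upwards [hO.mem_nhds (hRO hw), c1.eventually (Ioi_mem_nhds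
              (sub_pos.2 ((lt_al_iff (hRU hw)).2 g)))] with y a b using ⟨a, sub_pos.1 b⟩
          filter_upwards [(local_inv hO hOU hTh (hRO hw)).2 _ hN] with z hz
          obtain ⟨y, ⟨y1, y2⟩, rfl⟩ := hz
          simp only [pe, ez, hTh y y1,
            (inner_facts (hOU y1) ((le_al_iff (hOU y1)).1 y2.le)).2.2.1]
        · refine ⟨0, ?_, ?_⟩
          · have h1 := (Pt_deriv (NN (Th (KK w)))).hasFDerivAt.comp (KK w)
              ((NNc w hw).differentiableAt (by norm_num)).hasFDerivAt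
            refine h1.congr_fderiv ?_
            rw [hTh w (hRO hw), hh_zero (NN_nonpos (hRU hw) g)]
            ext1; simp
          · rw [kk_out (hRU hw) (not_lt.1 fun a => not_lt.2 g ((lt_al_iff (hRU hw)).1 a))]
            norm_num
      obtain ⟨P, h1, h2⟩ := key
      refine ⟨0, P, ((HasFDerivAt.comp (τ, KK w) (f := Prod.snd) h1
        hasFDerivAt_snd).congr_fderiv (by simp)).congr_of_eventuallyEq ev, by rw [h2]; ring⟩
  · intro τ hτ w hw
    simp only [p, hTh w (hRO hw)]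
    split_ifs with h
    · have hm : KK w ∈ KK '' (Rb ∩ (fun w => (rt w).re) ⁻¹' Iic (162 / 100)) :=
        ⟨w, ⟨hw, by simp only [mem_preimage, mem_Iic]; linarith⟩, rfl⟩
      have h1 := abs_le.1 (hun _ (sh τ hτ) _ hm)
      have h2 := hδ' _ hm
      simp only [pm]
      linarith [h1.2]
    · exact Pt_nonneg _
  · intro τ hτ w hw hp
    have g : (rt w).re < sg w.im := by
      by_contra g
      push Not at g
      apply hp
      simp only [p, pe, hTh w (hRO hw)]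
      rw [if_neg (by linarith [(sg_bd (hRU hw)).1]), Pt_zero (NN_nonpos (hRU hw) g)]
    have a := (lt_al_iff (hRU hw)).2 g
    refine ⟨(inner_eq a.le).2.2, ?_, ?_⟩ <;> linarith [(abs_lt.1 a).1, (abs_lt.1 a).2, (hal' w hw).2]

end Pool.Agent.H308Z.MFG
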